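import Pool.Agent.Lib_helper9.Rat.B5
import Pool.Agent.Lib_helper61.Rat.Window

/-!
The case `(5, 18)` of problem MP_88c4fb_an: `x_n = (α + β_2 x_{n-2}) / (B_1 x_{n-1} + B_4 x_{n-4})`.
-/

set_option autoImplicit false

namespace Pool.Agent.RatRec

theorem bdd_5_18 : BoundedOnly (fs 5) (fs 18) := by
  have f5 : fs 5 = {0, 2} := by decide
  have f18 : fs 18 = {1, 4} := by decide
  rw [f5, f18]
  intro b B hb hB x hx
  have hb0 : 0 < b 0 := hb.1 0 (by decide)
  have hb1 : b 1 = 0 := hb.2 1 (by decide)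
  have hb2 : 0 < b 2 := hb.1 2 (by decide)
  have hb3 : b 3 = 0 := hb.2 3 (by decide)
  have hb4 : b 4 = 0 := hb.2 4 (by decide)
  have hB0 : B 0 = 0 := hB.2 0 (by decide)
  have hB1 : 0 < B 1 := hB.1 1 (by decide)
  have hB2 : B 2 = 0 := hB.2 2 (by decide)
  have hB3 : B 3 = 0 := hB.2 3 (by decide)
  have hB4 : 0 < B 4 := hB.1 4 (by decide)
  have hden : ∀ n, lin B x n = B 1 * x (n + 3) + B 4 * x n := by
    intro n
    simp [lin, hB0, hB2, hB3]
  have hnum : ∀ n, lin b x n = b 0 + b 2 * x (n + 2) := by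
    intro n
    simp [lin, hb1, hb3, hb4]
  have hnn : ∀ n, 0 ≤ x n := hx.nonneg hb.nonneg
  have hpos : ∀ n, 0 < x (n + 4) := by
    intro n
    rw [hx.step n, hnum n]
    have := hx.den_pos n
    have := mul_nonneg hb2.le (hnn (n + 2))
    positivity
  have hstep : ∀ n, x (n + 4) * (B 1 * x (n + 3) + B 4 * x n) = b 0 + b 2 * x (n + 2) := by
    intro n
    have h1 := hx.step n
    have h2 := hx.den_pos n
    rw [hnum n] at h1
    rw [hden n] at h1 h2
    rw [h1]
    field_simp
  obtain ⟨M, hM⟩ := Pool.Agent.RatExo.boundedB (a := b 0 * B 4 / b 2 ^ 2) (b := B 1 / B 4)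
    (by positivity) (by positivity) (x := fun n => x (n + 4) * (B 4 / b 2))
    (fun n => mul_pos (hpos n) (by positivity)) (by
      intro n
      have h := hstep (n + 4)
      show x (n + 4 + 4) * (B 4 / b 2) * (B 1 / B 4 * (x (n + 3 + 4) * (B 4 / b 2)) +
        x (n + 4) * (B 4 / b 2)) = b 0 * B 4 / b 2 ^ 2 + x (n + 2 + 4) * (B 4 / b 2)
      have e1 : n + 3 + 4 = n + 4 + 3 := by ring
      have e2 : n + 2 + 4 = n + 4 + 2 := by ring
      rw [e1, e2]
      have e3 : x (n + 4 + 4) * (B 4 / b 2) * (B 1 / B 4 * (x (n + 4 + 3) * (B 4 / b 2)) +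
        x (n + 4) * (B 4 / b 2)) = B 4 / b 2 ^ 2 * (x (n + 4 + 4) *
          (B 1 * x (n + 4 + 3) + B 4 * x (n + 4))) := by
        field_simp
      rw [e3, h]
      field_simp)
  refine ⟨max (max (max (x 0) (x 1)) (max (x 2) (x 3))) (M * (b 2 / B 4)), ?_⟩
  intro n
  match n with
  | 0 => exact ((le_max_left _ _).trans (le_max_left _ _)).trans (le_max_left _ _)
  | 1 => exact ((le_max_right _ _).trans (le_max_left _ _)).trans (le_max_left _ _)
  | 2 => exact ((le_max_left _ _).trans (le_max_right _ _)).trans (le_max_left _ _)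
  | 3 => exact ((le_max_right _ _).trans (le_max_right _ _)).trans (le_max_left _ _)
  | n + 4 =>
    refine le_trans ?_ (le_max_right _ _)
    have h := hM n
    have h2 : x (n + 4) * (B 4 / b 2) * (b 2 / B 4) ≤ M * (b 2 / B 4) :=
      mul_le_mul_of_nonneg_right h (by positivity)
    have h3 : x (n + 4) * (B 4 / b 2) * (b 2 / B 4) = x (n + 4) := by field_simp
    linarith

end Pool.Agent.RatRec
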