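import Mathlib

/-!
The equation `x_n (b x_{n-2} + x_{n-4}) = a + x_{n-1}`: size of the terms of a window which ends at a
near record.
-/

set_option autoImplicit false

namespace Pool.Agent.RatExo

open Filter

/-- A window of a solution of `x_n (b x_{n-2} + x_{n-4}) = a + x_{n-1}`, all terms at most `M`. -/
structure WinA (a b M : ℝ) (y : ℕ → ℝ) : Prop where
  pos : ∀ i, 0 < y i
  le : ∀ i, i ≤ 13 → y i ≤ M
  eq : ∀ i, y (i + 4) * (b * y (i + 2) + y i) = a + y (i + 3)

/-! Small arithmetic lemmas. -/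

theorem drop_right {x y z A : ℝ} (hx : 0 < x) (hz : 0 < z) (h : x * (y + z) ≤ A) :
    x * y ≤ A := by
  have h1 : x * (y + z) = x * y + x * z := by ring
  have h2 : 0 < x * z := mul_pos hx hz
  linarith

theorem drop_left {x y z A : ℝ} (hx : 0 < x) (hy : 0 < y) (h : x * (y + z) ≤ A) :
    x * z ≤ A := by
  have h1 : x * (y + z) = x * y + x * z := by ring
  have h2 : 0 < x * y := mul_pos hx hy
  linarith

theorem comb_le {b s p M : ℝ} (hb : 0 < b) (ls : s ≤ M) (lp : p ≤ M) :
    b * s + p ≤ (b + 1) * M := by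
  have h : b * s ≤ b * M := mul_le_mul_of_nonneg_left ls hb.le
  have h1 : (b + 1) * M = b * M + M := by ring
  linarith

/-- from `w (b u + q) >= a` and `u <= 1` -/
theorem lower_w {a b u q w : ℝ} (hb : 0 < b) (hw : 0 < w) (h : a ≤ w * (b * u + q))
    (hu : u ≤ 1) : a ≤ w * (b + q) := by
  have h1 : b * u + q ≤ b + q := by
    have : b * u ≤ b * 1 := mul_le_mul_of_nonneg_left hu hb.le
    linarith
  exact h.trans (mul_le_mul_of_nonneg_left h1 hw.le)

/-- from `X w <= A` and `a <= w Z` get `a X <= A Z`. -/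
theorem elim_w {a w Z X A : ℝ} (hX : 0 ≤ X) (hZ : 0 ≤ Z) (h1 : X * w ≤ A) (h2 : a ≤ w * Z) :
    a * X ≤ A * Z := by
  have h3 : a * X ≤ w * Z * X := mul_le_mul_of_nonneg_right h2 hX
  have h4 : X * w * Z ≤ A * Z := mul_le_mul_of_nonneg_right h1 hZ
  have h5 : w * Z * X = X * w * Z := by ring
  linarith

theorem pinA_Q {a b l σ M P Q S w : ℝ} (hb : 0 < b) (hl : 0 < l) (hσ : 0 < σ)
    (hP : 0 < P) (hw : 0 < w)
    (e10 : S * (b * P + w) = a + Q) (hF : M ≤ Q + l * P) (hS : σ ≤ S)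
    (hM : 2 * l * a / (σ * b) ≤ M) : σ * b / (2 * (σ * b + l)) * M ≤ Q := by
  have h1 : σ * (b * P) ≤ a + Q := by
    have h3 : σ * (b * P) ≤ S * (b * P) := mul_le_mul_of_nonneg_right hS (by positivity)
    have h4 : 0 < S * w := mul_pos (lt_of_lt_of_le hσ hS) hw
    have h5 : S * (b * P + w) = S * (b * P) + S * w := by ring
    linarith
  have h2 : 2 * l * a ≤ M * (σ * b) := by rwa [div_le_iff₀ (by positivity)] at hM
  rw [div_mul_eq_mul_div, div_le_iff₀ (by positivity)]
  have h3 : σ * b * M ≤ σ * b * (Q + l * P) := mul_le_mul_of_nonneg_left hF (by positivity)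
  have h4 : l * (σ * (b * P)) ≤ l * (a + Q) := mul_le_mul_of_nonneg_left h1 hl.le
  nlinarith

/-- Case (i): the term `P` is of the order of `M`. -/
theorem pinA_i {a b A c2 M P q u v w t : ℝ} (ha : 0 < a) (hb : 0 < b) (hA : 0 < A)
    (hc2 : 0 < c2) (hM : 0 < M) (hq : 0 < q) (hu : 0 < u) (hv : 0 < v) (hw : 0 < w)
    (e6 : w * (b * u + q) = a + v) (e8 : P * (b * w + u) = a + t) (ht : a + t ≤ A)
    (hP : c2 * M ≤ P) (hM1 : A / c2 ≤ M) (hM2 : 2 * A / (a * c2) ≤ M) :
    a * b * c2 / (2 * A) * M ≤ q := by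
  have k1 : c2 * M * (b * w + u) ≤ A := by
    have : c2 * M * (b * w + u) ≤ P * (b * w + u) :=
      mul_le_mul_of_nonneg_right hP (by positivity)
    linarith
  have k2 : A ≤ M * c2 := by rwa [div_le_iff₀ hc2] at hM1
  have hcM : 0 < c2 * M := by positivity
  have k3 : u ≤ 1 := by
    have h1 := drop_left hcM (show 0 < b * w by positivity) k1
    have h2 : c2 * M * u ≤ c2 * M * 1 := by linarith
    exact le_of_mul_le_mul_left h2 hcM
  have k4 : c2 * M * (b * w) ≤ A := drop_right hcM hu k1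
  have k5 : a ≤ w * (b + q) := lower_w hb hw (by linarith) k3
  have k6 : a * (c2 * M * b) ≤ A * (b + q) :=
    elim_w (by positivity) (by positivity) (by linarith [mul_assoc (c2 * M) b w]) k5
  have k7 : 2 * A ≤ M * (a * c2) := by rwa [div_le_iff₀ (by positivity)] at hM2
  rw [div_mul_eq_mul_div, div_le_iff₀ (by positivity)]
  have k8 : 2 * A * b ≤ M * (a * c2) * b := mul_le_mul_of_nonneg_right k7 hb.le
  linarith [mul_add A b q, mul_comm M (a * c2)]

/-- the lower bound for `b w + u` -/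
theorem lower_bwu {a b c0 q u v w : ℝ} (hb : 0 < b) (hu : 0 < u) (hv : 0 < v)
    (hw : 0 < w) (e6 : w * (b * u + q) = a + v) (hq1 : q < 1)
    (hc0 : c0 = min 1 (a * b / (b + 1))) : c0 ≤ b * w + u := by
  rcases le_or_gt 1 u with h | h
  · have : c0 ≤ 1 := by rw [hc0]; exact min_le_left _ _
    have : 0 < b * w := by positivity
    linarith
  · have h1 : a ≤ w * (b + q) := lower_w hb hw (by linarith) h.le
    have h3 : a ≤ w * (b + 1) := by
      have : w * q ≤ w * 1 := mul_le_mul_of_nonneg_left hq1.le hw.le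
      linarith [mul_add w b q, mul_add w b 1]
    have h2 : a * b / (b + 1) ≤ b * w := by
      rw [div_le_iff₀ (by positivity)]
      have := mul_le_mul_of_nonneg_right h3 hb.le
      linarith [mul_comm b w, mul_assoc w (b + 1) b, mul_comm (b + 1) b, mul_assoc w b (b + 1)]
    have : c0 ≤ a * b / (b + 1) := by rw [hc0]; exact min_le_right _ _
    linarith

/-- Case (ii), `q < 1`: impossible. -/
theorem pinA_ii_small {a b A c1 M y1 w0 t0 p q s u v w t P Q : ℝ} (ha : 0 < a) (hb : 0 < b)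
    (hA : 0 < A) (hc1 : 0 < c1) (hM : 0 < M)
    (hw0 : 0 < w0) (ht0 : 0 < t0) (hp : 0 < p) (hq : 0 < q) (hs : 0 < s)
    (hu : 0 < u) (hv : 0 < v) (hw : 0 < w) (ht : 0 < t) (hP : 0 < P)
    (ly1 : y1 ≤ M) (lw0 : w0 ≤ M) (lp : p ≤ M) (ls : s ≤ M)
    (e1 : p * (b * w0 + y1) = a + t0) (e3 : s * (b * p + w0) = a + q)
    (e4 : u * (b * q + t0) = a + s) (e5 : v * (b * s + p) = a + u)
    (e6 : w * (b * u + q) = a + v) (e7 : t * (b * v + s) = a + w)
    (e8 : P * (b * w + u) = a + t) (e9 : Q * (b * t + v) = a + P)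
    (hAt : a + t ≤ A) (hv1 : v ≤ 1) (hQ : c1 * M ≤ Q) (hq1 : q < 1)
    {c0 A2 c5 A3 c6 : ℝ} (hc0 : c0 = min 1 (a * b / (b + 1))) (hA2 : A2 = a + A / c0)
    (hM1 : 2 * A2 / (a * c1) ≤ M) (hc5 : c5 = a * b * c1 / (2 * A2))
    (hA3 : A3 = (b + 1) * A2 / c1) (hM2 : 2 * A3 * b / c5 ≤ M) (hc6 : c6 = c5 / (2 * A3))
    (hM3 : (a + 1) * (b + 1) / (c5 * c6 * b) < M) : False := by
  have c0pos : 0 < c0 := by rw [hc0]; exact lt_min one_pos (by positivity)
  have A2pos : 0 < A2 := by rw [hA2]; positivity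
  have c5pos : 0 < c5 := by rw [hc5]; positivity
  have A3pos : 0 < A3 := by rw [hA3]; positivity
  have c6pos : 0 < c6 := by rw [hc6]; positivity
  have hcM : 0 < c1 * M := by positivity
  have k1 : c0 ≤ b * w + u := lower_bwu hb hu hv hw e6 hq1 hc0
  have k2 : P ≤ A / c0 := by
    rw [le_div_iff₀ c0pos]
    have : P * c0 ≤ P * (b * w + u) := mul_le_mul_of_nonneg_left k1 hP.le
    linarith
  have k3 : c1 * M * (b * t + v) ≤ A2 := by
    have : c1 * M * (b * t + v) ≤ Q * (b * t + v) :=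
      mul_le_mul_of_nonneg_right hQ (by positivity)
    rw [hA2]; linarith
  have k4 : c1 * M * (b * t) ≤ A2 := drop_right hcM hv k3
  have k5 : c1 * M * v ≤ A2 := drop_left hcM (by positivity) k3
  have k6 : c5 * M ≤ s := by
    have h1 : a ≤ t * (b + s) := lower_w hb ht (by linarith) hv1
    have h2 : a * (c1 * M * b) ≤ A2 * (b + s) :=
      elim_w (by positivity) (by positivity) (by linarith [mul_assoc (c1 * M) b t]) h1
    have h3 : 2 * A2 ≤ M * (a * c1) := by rwa [div_le_iff₀ (by positivity)] at hM1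
    have h4 : 2 * A2 * b ≤ M * (a * c1) * b := mul_le_mul_of_nonneg_right h3 hb.le
    rw [hc5, div_mul_eq_mul_div, div_le_iff₀ (by positivity)]
    linarith [mul_add A2 b s]
  have k7 : u ≤ A3 := by
    have h1 : v * (b * s + p) ≤ v * ((b + 1) * M) :=
      mul_le_mul_of_nonneg_left (comb_le hb ls lp) hv.le
    have h2 : u ≤ v * ((b + 1) * M) := by linarith
    rw [hA3, le_div_iff₀ hc1]
    have h3 : u * c1 ≤ v * ((b + 1) * M) * c1 := mul_le_mul_of_nonneg_right h2 hc1.le
    have h4 : (b + 1) * (c1 * M * v) ≤ (b + 1) * A2 :=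
      mul_le_mul_of_nonneg_left k5 (by positivity)
    have h5 : v * ((b + 1) * M) * c1 = (b + 1) * (c1 * M * v) := by ring
    linarith
  have k8 : c6 * M ≤ t0 := by
    have h1 : c5 * M ≤ A3 * (b + t0) := by
      have h0 : b * q + t0 ≤ b + t0 := by
        have : b * q ≤ b * 1 := mul_le_mul_of_nonneg_left hq1.le hb.le
        linarith
      have h1 : u * (b * q + t0) ≤ A3 * (b + t0) :=
        mul_le_mul k7 h0 (by positivity) A3pos.le
      linarith
    have h2 : 2 * A3 * b ≤ M * c5 := by rwa [div_le_iff₀ c5pos] at hM2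
    rw [hc6, div_mul_eq_mul_div, div_le_iff₀ (by positivity)]
    linarith [mul_add A3 b t0, mul_comm M c5]
  have k9 : c5 * M * (b * p) ≤ a + 1 := by
    have h1 : c5 * M * (b * p) ≤ s * (b * p) := mul_le_mul_of_nonneg_right k6 (by positivity)
    have h2 : s * (b * p) ≤ a + q := drop_right hs hw0 e3.le
    linarith
  have k10 : c6 ≤ p * (b + 1) := by
    have h1 : p * (b * w0 + y1) ≤ p * ((b + 1) * M) :=
      mul_le_mul_of_nonneg_left (comb_le hb lw0 ly1) hp.le
    have : c6 * M ≤ (p * (b + 1)) * M := by linarith [mul_assoc p (b + 1) M]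
    exact le_of_mul_le_mul_right this hM
  rw [div_lt_iff₀ (by positivity)] at hM3
  have k12 : c6 * (c5 * M * b) ≤ p * (b + 1) * (c5 * M * b) :=
    mul_le_mul_of_nonneg_right k10 (by positivity)
  have k13 : c5 * M * (b * p) * (b + 1) ≤ (a + 1) * (b + 1) :=
    mul_le_mul_of_nonneg_right k9 (by positivity)
  have k14 : p * (b + 1) * (c5 * M * b) = c5 * M * (b * p) * (b + 1) := by ring
  have k15 : M * (c5 * c6 * b) = c6 * (c5 * M * b) := by ring
  linarith

/-- Case (ii), `q ≥ 1`. -/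
theorem pinA_ii_big {a b A c1 M w0 v0 t0 p q s u v w t P Q : ℝ} (ha : 0 < a) (hb : 0 < b)
    (hA : 0 < A) (hc1 : 0 < c1) (hM : 0 < M)
    (hw0 : 0 < w0) (hv0 : 0 < v0) (hp : 0 < p) (hq : 0 < q) (hs : 0 < s)
    (hu : 0 < u) (hv : 0 < v) (hw : 0 < w) (ht : 0 < t) (hP : 0 < P)
    (lp : p ≤ M) (lq : q ≤ M) (ls : s ≤ M)
    (e2 : q * (b * t0 + v0) = a + p) (e3 : s * (b * p + w0) = a + q)
    (e4 : u * (b * q + t0) = a + s) (e5 : v * (b * s + p) = a + u)
    (e7 : t * (b * v + s) = a + w)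
    (e8 : P * (b * w + u) = a + t) (e9 : Q * (b * t + v) = a + P)
    (hAt : a + t ≤ A) (hv1 : v ≤ 1) (hs1 : 1 ≤ s) (hQ : c1 * M ≤ Q) (hq1 : 1 ≤ q)
    {A4 A5 c7 c8 A8 : ℝ} (hA4 : A4 = (a * b + a + 1) / b ^ 2) (hA5 : A5 = A * (b + A4))
    (hc7 : c7 = c1 * a * b / (2 * (b + 1) * A5)) (hc8 : c8 = c1 * b / (2 * (b + 1)))
    (hA8 : A8 = (b + 1) * (a + A5 / c8) / c1) :
    c7 * M ≤ q ∨ c8 / (A8 * (b + A4)) * M ≤ q := by
  have A4pos : 0 < A4 := by rw [hA4]; positivity
  have A5pos : 0 < A5 := by rw [hA5]; positivity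
  have c8pos : 0 < c8 := by rw [hc8]; positivity
  have A8pos : 0 < A8 := by rw [hA8]; positivity
  have hcM : 0 < c1 * M := by positivity
  have hQ0 : 0 < Q := lt_of_lt_of_le hcM hQ
  have aq : a ≤ a * q := by
    have := mul_le_mul_of_nonneg_left hq1 ha.le
    linarith
  have k1 : b * p ≤ (a + 1) * q := by
    have h1 : 1 * (b * p) ≤ s * (b * p) := mul_le_mul_of_nonneg_right hs1 (by positivity)
    have h2 : s * (b * p) ≤ a + q := drop_right hs hw0 e3.le
    linarith [add_mul a 1 q]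
  have k2 : t0 ≤ A4 := by
    rw [hA4, le_div_iff₀ (by positivity)]
    have h1 : q * (b * t0) ≤ a + p := drop_right hq hv0 e2.le
    have h2 : b * (q * (b * t0)) ≤ b * (a + p) := mul_le_mul_of_nonneg_left h1 hb.le
    have h4 : b * a ≤ b * (a * q) := mul_le_mul_of_nonneg_left aq hb.le
    have h3 : q * (t0 * b ^ 2) ≤ q * (a * b + a + 1) := by
      have e1 : q * (t0 * b ^ 2) = b * (q * (b * t0)) := by ring
      have e2 : q * (a * b + a + 1) = b * (a * q) + (a + 1) * q := by ring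
      linarith [mul_add b a p]
    exact le_of_mul_le_mul_left h3 hq
  have k3 : a + s ≤ u * ((b + A4) * q) := by
    have h0 : b * q + t0 ≤ (b + A4) * q := by
      have : A4 * 1 ≤ A4 * q := mul_le_mul_of_nonneg_left hq1 A4pos.le
      linarith [add_mul b A4 q]
    have : u * (b * q + t0) ≤ u * ((b + A4) * q) := mul_le_mul_of_nonneg_left h0 hu.le
    linarith
  have k4 : P * (a + s) ≤ A5 * q := by
    have h1 : P * (a + s) ≤ P * (u * ((b + A4) * q)) := mul_le_mul_of_nonneg_left k3 hP.le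
    have h2 : P * u ≤ A := drop_left hP (show 0 < b * w by positivity) (by linarith)
    have h3 : P * u * ((b + A4) * q) ≤ A * ((b + A4) * q) :=
      mul_le_mul_of_nonneg_right h2 (by positivity)
    rw [hA5]
    linarith [mul_assoc P u ((b + A4) * q), mul_assoc A (b + A4) q]
  have k5 : P * s ≤ A5 * q := by
    have : 0 < P * a := by positivity
    linarith [mul_add P a s]
  have k6 : Q * (a * b) ≤ (b + 1) * (a * s + A5 * q) := by
    have h1 : Q * (b * t) ≤ a + P := drop_right hQ0 hv e9.le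
    have h2 : a ≤ t * (b * v + s) := by linarith
    have h3 : a * (Q * b) ≤ (a + P) * (b * v + s) :=
      elim_w (by positivity) (by positivity) (by linarith [mul_assoc Q b t]) h2
    have h6 : b * v + s ≤ (b + 1) * s := by
      have : b * v ≤ b * 1 := mul_le_mul_of_nonneg_left hv1 hb.le
      have : b * 1 ≤ b * s := mul_le_mul_of_nonneg_left hs1 hb.le
      linarith [add_mul b 1 s]
    have h5 : (a + P) * (b * v + s) ≤ (a + P) * ((b + 1) * s) :=
      mul_le_mul_of_nonneg_left h6 (by positivity)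
    have h7 : (b + 1) * (P * s) ≤ (b + 1) * (A5 * q) :=
      mul_le_mul_of_nonneg_left k5 (by positivity)
    have e1 : (a + P) * ((b + 1) * s) = (b + 1) * (a * s) + (b + 1) * (P * s) := by ring
    have e2 : (b + 1) * (a * s + A5 * q) = (b + 1) * (a * s) + (b + 1) * (A5 * q) := by ring
    have e3 : Q * (a * b) = a * (Q * b) := by ring
    linarith
  by_cases hcase : c7 * M ≤ q
  · exact Or.inl hcase
  right
  push Not at hcase
  have k7 : c8 * M ≤ s := by
    have h1 : (b + 1) * (A5 * q) ≤ (b + 1) * (A5 * (c7 * M)) := by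
      apply mul_le_mul_of_nonneg_left _ (by positivity)
      exact mul_le_mul_of_nonneg_left hcase.le A5pos.le
    have h2 : (b + 1) * (A5 * (c7 * M)) = c1 * a * b * M / 2 := by
      rw [hc7]; field_simp
    have h3 : c1 * M * (a * b) ≤ Q * (a * b) := mul_le_mul_of_nonneg_right hQ (by positivity)
    have h4 : c1 * a * b * M / 2 ≤ (b + 1) * (a * s) := by
      have e1 : c1 * M * (a * b) = c1 * a * b * M := by ring
      linarith [mul_add (b + 1) (a * s) (A5 * q)]
    rw [hc8, div_mul_eq_mul_div, div_le_iff₀ (by positivity)]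
    have h5 : a * (c1 * b * M) ≤ a * (s * (2 * (b + 1))) := by
      have e1 : a * (c1 * b * M) = c1 * a * b * M := by ring
      have e2 : a * (s * (2 * (b + 1))) = 2 * ((b + 1) * (a * s)) := by ring
      linarith
    exact le_of_mul_le_mul_left h5 ha
  have k8 : P ≤ A5 / c8 := by
    rw [le_div_iff₀ c8pos]
    have h1 : P * (c8 * M) ≤ P * s := mul_le_mul_of_nonneg_left k7 hP.le
    have h2 : A5 * q ≤ A5 * M := mul_le_mul_of_nonneg_left lq A5pos.le
    have h3 : P * c8 * M ≤ A5 * M := by linarith [mul_assoc P c8 M]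
    exact le_of_mul_le_mul_right h3 hM
  have k9 : c1 * M * v ≤ a + A5 / c8 := by
    have h1 : c1 * M * (b * t + v) ≤ Q * (b * t + v) :=
      mul_le_mul_of_nonneg_right hQ (by positivity)
    exact drop_left hcM (show 0 < b * t by positivity) (by linarith)
  have k10 : u ≤ A8 := by
    have h1 : v * (b * s + p) ≤ v * ((b + 1) * M) :=
      mul_le_mul_of_nonneg_left (comb_le hb ls lp) hv.le
    have h2 : u ≤ v * ((b + 1) * M) := by linarith
    rw [hA8, le_div_iff₀ hc1]
    have h3 : u * c1 ≤ v * ((b + 1) * M) * c1 := mul_le_mul_of_nonneg_right h2 hc1.le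
    have h4 : (b + 1) * (c1 * M * v) ≤ (b + 1) * (a + A5 / c8) :=
      mul_le_mul_of_nonneg_left k9 (by positivity)
    have h5 : v * ((b + 1) * M) * c1 = (b + 1) * (c1 * M * v) := by ring
    linarith
  rw [div_mul_eq_mul_div, div_le_iff₀ (by positivity)]
  have h1 : u * ((b + A4) * q) ≤ A8 * ((b + A4) * q) :=
    mul_le_mul_of_nonneg_right k10 (by positivity)
  have e1 : q * (A8 * (b + A4)) = A8 * ((b + A4) * q) := by ring
  linarith

end Pool.Agent.RatExo
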