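import Pool.Agent.Lib_helper9.Rat.A1

/-!
The equation `x_n (b x_{n-2} + x_{n-4}) = a + x_{n-1}`: the term seven steps back is large, and the two
regimes.
-/

set_option autoImplicit false

namespace Pool.Agent.RatExo

open Filter

/-- If `y 13` is of the order of `M` then so is `y 6`. -/
theorem pinA {a b c1 : ℝ} (ha : 0 < a) (hb : 0 < b) (hc1 : 0 < c1) :
    ∃ c > 0, ∀ᶠ M : ℝ in atTop, ∀ y, WinA a b M y → c1 * M ≤ y 13 → c * M ≤ y 6 := by
  -- constants
  set T1 : ℝ := 2 / c1 with hT1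
  have T1pos : 0 < T1 := by positivity
  set A : ℝ := a + T1 / b with hA
  have Apos : 0 < A := by positivity
  set δ : ℝ := min 1 (a * b / (1 + b)) with hδ
  have δpos : 0 < δ := lt_min one_pos (by positivity)
  have δ1 : δ ≤ 1 := min_le_left _ _
  have δ2 : δ * (1 + b) ≤ a * b := by
    have : δ ≤ a * b / (1 + b) := min_le_right _ _
    rwa [le_div_iff₀ (by positivity)] at this
  set c2 : ℝ := c1 * δ / 2 with hc2
  have c2pos : 0 < c2 := by positivity
  set c3 : ℝ := a * b * c2 / (2 * A) with hc3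
  have c3pos : 0 < c3 := by positivity
  set c0 : ℝ := min 1 (a * b / (b + 1)) with hc0
  have c0pos : 0 < c0 := lt_min one_pos (by positivity)
  set A2 : ℝ := a + A / c0 with hA2
  have A2pos : 0 < A2 := by positivity
  set c5 : ℝ := a * b * c1 / (2 * A2) with hc5
  have c5pos : 0 < c5 := by positivity
  set A3 : ℝ := (b + 1) * A2 / c1 with hA3
  have A3pos : 0 < A3 := by positivity
  set c6 : ℝ := c5 / (2 * A3) with hc6
  have c6pos : 0 < c6 := by positivity
  set A4 : ℝ := (a * b + a + 1) / b ^ 2 with hA4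
  have A4pos : 0 < A4 := by positivity
  set A5 : ℝ := A * (b + A4) with hA5
  have A5pos : 0 < A5 := by positivity
  set c7 : ℝ := c1 * a * b / (2 * (b + 1) * A5) with hc7
  have c7pos : 0 < c7 := by positivity
  set c8 : ℝ := c1 * b / (2 * (b + 1)) with hc8
  have c8pos : 0 < c8 := by positivity
  set A8 : ℝ := (b + 1) * (a + A5 / c8) / c1 with hA8
  have A8pos : 0 < A8 := by positivity
  set c9 : ℝ := c8 / (A8 * (b + A4)) with hc9
  have c9pos : 0 < c9 := by positivity
  refine ⟨min c3 (min c7 c9), lt_min c3pos (lt_min c7pos c9pos), ?_⟩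
  filter_upwards [eventually_ge_atTop (1 : ℝ), eventually_ge_atTop a,
    eventually_ge_atTop (a / c2), eventually_ge_atTop (A / c2),
    eventually_ge_atTop (2 * A / (a * c2)), eventually_ge_atTop (2 * A2 / (a * c1)),
    eventually_ge_atTop (2 * A3 * b / c5),
    eventually_gt_atTop ((a + 1) * (b + 1) / (c5 * c6 * b))] with
    M hM1 hMa hMc2 hMA hMA2 hM3 hM4 hM5 y h hQ
  have hM : 0 < M := by linarith
  have e1 : y 5 * (b * y 3 + y 1) = a + y 4 := h.eq 1
  have e2 : y 6 * (b * y 4 + y 2) = a + y 5 := h.eq 2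
  have e3 : y 7 * (b * y 5 + y 3) = a + y 6 := h.eq 3
  have e4 : y 8 * (b * y 6 + y 4) = a + y 7 := h.eq 4
  have e5 : y 9 * (b * y 7 + y 5) = a + y 8 := h.eq 5
  have e6 : y 10 * (b * y 8 + y 6) = a + y 9 := h.eq 6
  have e7 : y 11 * (b * y 9 + y 7) = a + y 10 := h.eq 7
  have e8 : y 12 * (b * y 10 + y 8) = a + y 11 := h.eq 8
  have e9 : y 13 * (b * y 11 + y 9) = a + y 12 := h.eq 9
  have hp := h.pos
  have l1 := h.le 1 (by norm_num)
  have l3 := h.le 3 (by norm_num)
  have l5 := h.le 5 (by norm_num)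
  have l6 := h.le 6 (by norm_num)
  have l7 := h.le 7 (by norm_num)
  have l12 := h.le 12 (by norm_num)
  have hcM : 0 < c1 * M := by positivity
  -- `b t + v` is bounded
  have k1 : c1 * M * (b * y 11 + y 9) ≤ a + y 12 := by
    have : c1 * M * (b * y 11 + y 9) ≤ y 13 * (b * y 11 + y 9) :=
      mul_le_mul_of_nonneg_right hQ (by have := hp 11; have := hp 9; positivity)
    linarith
  have k2 : b * y 11 ≤ T1 := by
    have h1 : c1 * M * (b * y 11) ≤ a + y 12 := drop_right hcM (hp 9) k1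
    rw [hT1, le_div_iff₀ hc1]
    have h2 : b * y 11 * c1 * M ≤ 2 * M := by
      have e : b * y 11 * c1 * M = c1 * M * (b * y 11) := by ring
      linarith
    exact le_of_mul_le_mul_right h2 hM
  have hAt : a + y 11 ≤ A := by
    have : y 11 ≤ T1 / b := by rw [le_div_iff₀ hb]; linarith
    rw [hA]; linarith
  rcases le_or_gt (c2 * M) (y 12) with hP | hP
  · have := pinA_i ha hb Apos c2pos hM (hp 6) (hp 8) (hp 9) (hp 10) e6 e8 hAt hP hMA hMA2
    exact (mul_le_mul_of_nonneg_right (min_le_left _ _) hM.le).trans this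
  · -- `b t + v ≤ δ`
    have k3 : a ≤ M * c2 := by rwa [div_le_iff₀ c2pos] at hMc2
    have k4 : c1 * M * (b * y 11 + y 9) ≤ c1 * M * δ := by
      have e : c1 * M * δ = 2 * (c2 * M) := by rw [hc2]; ring
      linarith
    have k5 : b * y 11 + y 9 ≤ δ := le_of_mul_le_mul_left k4 hcM
    have hb11 : 0 < b * y 11 := mul_pos hb (hp 11)
    have k6 : y 9 ≤ 1 := by linarith
    have k7 : 1 ≤ y 7 := by
      -- `a ≤ t (b v + s)`
      have h1 : a * b ≤ δ * (b * y 9 + y 7) := by
        have h2 : b * y 11 * (b * y 9 + y 7) ≤ δ * (b * y 9 + y 7) := by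
          apply mul_le_mul_of_nonneg_right _ (by have := hp 9; have := hp 7; positivity)
          linarith [hp 9]
        have h3 : b * (y 11 * (b * y 9 + y 7)) = b * (a + y 10) := by rw [e7]
        have h4 : 0 < b * y 10 := mul_pos hb (hp 10)
        have e : b * y 11 * (b * y 9 + y 7) = b * (y 11 * (b * y 9 + y 7)) := by ring
        linarith [mul_add b a (y 10)]
      have h2 : δ * (1 + b) ≤ δ * (b * y 9 + y 7) := by linarith
      have h3 : 1 + b ≤ b * y 9 + y 7 := le_of_mul_le_mul_left h2 δpos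
      have h4 : b * y 9 ≤ b * 1 := mul_le_mul_of_nonneg_left k6 hb.le
      linarith
    rcases lt_or_ge (y 6) 1 with hq1 | hq1
    · exact (pinA_ii_small ha hb Apos hc1 hM (hp 3) (hp 4) (hp 5) (hp 6) (hp 7) (hp 8)
        (hp 9) (hp 10) (hp 11) (hp 12) l1 l3 l5 l7 e1 e3 e4 e5 e6 e7 e8 e9 hAt k6 hQ hq1
        hc0 hA2 hM3 hc5 hA3 hM4 hc6 hM5).elim
    · rcases pinA_ii_big ha hb Apos hc1 hM (hp 3) (hp 2) (hp 5) (hp 6) (hp 7) (hp 8) (hp 9)
        (hp 10) (hp 11) (hp 12) l5 l6 l7 e2 e3 e4 e5 e7 e8 e9 hAt k6 k7 hQ hq1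
        hA4 hA5 hc7 hc8 hA8 with h1 | h1
      · refine (mul_le_mul_of_nonneg_right ?_ hM.le).trans h1
        exact (min_le_right _ _).trans (min_le_left _ _)
      · refine (mul_le_mul_of_nonneg_right ?_ hM.le).trans h1
        exact (min_le_right _ _).trans (min_le_right _ _)

end Pool.Agent.RatExo
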