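import Pool.Agent.Lib_helper9.Rat.A2

/-!
The equation `x_n (b x_{n-2} + x_{n-4}) = a + x_{n-1}`: the comparison of the functional in the two
regimes.
-/

set_option autoImplicit false

namespace Pool.Agent.RatExo

open Filter

/-- The exact expansion of the functional. -/
theorem expandA {a b t0 q s u v w t P Q : ℝ}
    (e4 : u * (b * q + t0) = a + s)
    (e6 : w * (b * u + q) = a + v) (e7 : t * (b * v + s) = a + w)
    (e8 : P * (b * w + u) = a + t) (e9 : Q * (b * t + v) = a + P) :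
    a * b * Q + a * (b ^ 2 + 1) * P = a * s + a * b * q + b * (q * t) - P * b ^ 2 * v
      + P * u * (b ^ 3 * w + t0) - Q * b * w - Q * (s * v) + b ^ 2 * (Q * (t * v)) := by
  linear_combination s * e9 - Q * b * e7 + b * q * e8 - P * b ^ 2 * e6 - P * e4

theorem mainA {a b A T0 W0 V W B σ z t0 w0 p q s u v w t P Q : ℝ} (ha : 0 < a) (hb : 0 < b)
    (hσ : 0 < σ) (hz0 : 0 < z)
    (hu : 0 < u) (hv : 0 < v) (hw : 0 < w) (ht : 0 < t) (hP : 0 < P)
    (hQ : 0 < Q) (hA : 0 < A) (ht0 : 0 < t0) (hB : 0 < W) (hT0 : 0 < T0)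
    (e3 : s * (b * p + w0) = a + q)
    (e4 : u * (b * q + t0) = a + s)
    (e6 : w * (b * u + q) = a + v) (e7 : t * (b * v + s) = a + w)
    (e8 : P * (b * w + u) = a + t) (e9 : Q * (b * t + v) = a + P)
    (hz : z * s = q) (hs : σ ≤ s) (bw0 : w0 ≤ W0) (bv : v ≤ V) (bw : w ≤ W) (bt0 : t0 ≤ T0)
    (bPu : P * u ≤ A) (bQtv : Q * (t * v) ≤ B) :
    a / b * z - a * s + Q * (s * v)
      - (a * (b ^ 2 + 1) / b * W0 + b * (a + V) / σ + A * (b ^ 3 * W + T0) + b ^ 2 * B)
      ≤ a * b * q + a * (b ^ 2 + 1) * p - (a * b * Q + a * (b ^ 2 + 1) * P) := by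
  have hs0 : 0 < s := lt_of_lt_of_le hσ hs
  have h1 := expandA e4 e6 e7 e8 e9
  -- the term `b q t`
  have h2 : q * t ≤ a * z + (a + V) / σ := by
    have h3 : q * t = z * (a + w) - z * (b * v * t) := by
      rw [← hz, ← e7]; ring
    have h4 : 0 < z * (b * v * t) := by positivity
    have h5 : z * w ≤ (a + V) / σ := by
      rw [le_div_iff₀ hσ]
      have h6 : z * w * σ ≤ z * w * s := mul_le_mul_of_nonneg_left hs (by positivity)
      have h7 : z * w * s = q * w := by rw [← hz]; ring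
      have h8 : w * q ≤ a + v := drop_left hw (show 0 < b * u by positivity) e6.le
      linarith [mul_comm q w]
    linarith [mul_add z a w, mul_comm a z]
  have h3 : z - W0 ≤ b * p := by
    have h4 : s * z ≤ s * (b * p + w0) := by rw [e3]; linarith [mul_comm s z]
    have h5 : z ≤ b * p + w0 := le_of_mul_le_mul_left h4 hs0
    linarith
  have h4 : a * (b ^ 2 + 1) / b * (z - W0) ≤ a * (b ^ 2 + 1) * p := by
    have h5 : a * (b ^ 2 + 1) / b * (z - W0) ≤ a * (b ^ 2 + 1) / b * (b * p) :=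
      mul_le_mul_of_nonneg_left h3 (by positivity)
    have h6 : a * (b ^ 2 + 1) / b * (b * p) = a * (b ^ 2 + 1) * p := by field_simp
    linarith
  have h5 : P * u * (b ^ 3 * w + t0) ≤ A * (b ^ 3 * W + T0) := by
    apply mul_le_mul bPu _ (by positivity) hA.le
    have : b ^ 3 * w ≤ b ^ 3 * W := mul_le_mul_of_nonneg_left bw (by positivity)
    linarith
  have h6 : 0 < P * b ^ 2 * v := by positivity
  have h7 : 0 < Q * b * w := by positivity
  have h8 : b ^ 2 * (Q * (t * v)) ≤ b ^ 2 * B := mul_le_mul_of_nonneg_left bQtv (by positivity)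
  have h9 : b * (q * t) ≤ b * (a * z + (a + V) / σ) := mul_le_mul_of_nonneg_left h2 hb.le
  have h10 : b * (a * z + (a + V) / σ) = a * b * z + b * (a + V) / σ := by ring
  have h11 : a * (b ^ 2 + 1) / b * (z - W0) = a * b * z + a / b * z - a * (b ^ 2 + 1) / b * W0 := by
    field_simp
  linarith

/-- The terms of a window in the first regime. -/
theorem boundsA {a b c z M y1 w0 v0 y0 t0 p q s : ℝ} (ha : 0 < a) (hb : 0 < b) (hc : 0 < c)
    (hM : 0 < M) (hMa : a ≤ M) (hy1 : 0 < y1) (hv0 : 0 < v0)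
    (ht0 : 0 < t0) (hp : 0 < p) (hs : 0 < s)
    (lv0 : v0 ≤ M) (ly0 : y0 ≤ M) (lp : p ≤ M)
    (e0 : t0 * (b * v0 + y0) = a + w0) (e1 : p * (b * w0 + y1) = a + t0)
    (e2 : q * (b * t0 + v0) = a + p) (e3 : s * (b * p + w0) = a + q)
    (hq : c * M ≤ q) (hz : z * s = q) (hz1 : 1 ≤ z) (hz2 : 2 * ((b + 1) / (b * c)) * a ≤ z) :
    t0 ≤ 2 / (b * c) ∧ z / (2 * (b + (b + 1) / (b * c))) ≤ p ∧
      w0 ≤ (a + 2 / (b * c)) / b * (2 * (b + (b + 1) / (b * c))) := by
  set C : ℝ := (b + 1) / (b * c) with hC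
  have hC0 : 0 < C := by positivity
  have hcM : 0 < c * M := by positivity
  have hq0 : 0 < q := lt_of_lt_of_le hcM hq
  have h1 : t0 * (b * (c * M)) ≤ a + p := by
    have h1 : q * (b * t0) ≤ a + p := drop_right hq0 hv0 e2.le
    have h2 : c * M * (b * t0) ≤ q * (b * t0) := mul_le_mul_of_nonneg_right hq (by positivity)
    have e : t0 * (b * (c * M)) = c * M * (b * t0) := by ring
    linarith
  have h2 : t0 ≤ 2 / (b * c) := by
    rw [le_div_iff₀ (by positivity)]
    have e : t0 * (b * (c * M)) = t0 * (b * c) * M := by ring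
    have h3 : t0 * (b * c) * M ≤ 2 * M := by linarith
    exact le_of_mul_le_mul_right h3 hM
  have h3 : w0 ≤ C * (a + p) := by
    have h4 : t0 * (b * v0 + y0) ≤ t0 * ((b + 1) * M) :=
      mul_le_mul_of_nonneg_left (comb_le hb lv0 ly0) ht0.le
    have h5 : C * (t0 * (b * (c * M))) ≤ C * (a + p) := mul_le_mul_of_nonneg_left h1 hC0.le
    have h6 : C * (t0 * (b * (c * M))) = t0 * ((b + 1) * M) := by
      rw [hC]; field_simp
    linarith
  have h4 : z / (2 * (b + C)) ≤ p := by
    rw [div_le_iff₀ (by positivity)]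
    have h5 : s * z ≤ s * (b * p + w0) := by rw [e3]; linarith [mul_comm s z]
    have h6 : z ≤ b * p + w0 := le_of_mul_le_mul_left h5 hs
    have e : p * (2 * (b + C)) = 2 * (b * p + C * (a + p)) - 2 * C * a := by ring
    linarith
  refine ⟨h2, h4, ?_⟩
  have h5 : p * (b * w0) ≤ a + 2 / (b * c) := by
    have := drop_right hp hy1 e1.le
    linarith
  have h6 : 1 / (2 * (b + C)) ≤ p := by
    refine le_trans ?_ h4
    exact div_le_div_of_nonneg_right hz1 (by positivity)
  have h7 : 1 ≤ p * (2 * (b + C)) := by rwa [div_le_iff₀ (by positivity)] at h6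
  rcases le_or_gt w0 0 with hw | hw
  · exact hw.trans (by positivity)
  have h8 : 1 * w0 ≤ p * (2 * (b + C)) * w0 := mul_le_mul_of_nonneg_right h7 hw.le
  have h9 : p * (2 * (b + C)) * w0 = p * (b * w0) / b * (2 * (b + C)) := by field_simp
  have h10 : p * (b * w0) / b * (2 * (b + C)) ≤ (a + 2 / (b * c)) / b * (2 * (b + C)) := by
    apply mul_le_mul_of_nonneg_right _ (by positivity)
    exact div_le_div_of_nonneg_right h5 hb.le
  linarith

/-- The lower bound for the quadratic correction. -/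
theorem quadA {a b c1 q s v p u Q w0 : ℝ} (ha : 0 < a) (hb : 0 < b) (hc1 : 0 < c1)
    (hq : 0 < q) (hs : 0 < s) (hu : 0 < u) (hv : 0 < v) (hw0 : 0 < w0)
    (e3 : s * (b * p + w0) = a + q) (e5 : v * (b * s + p) = a + u) (hQ : c1 * q ≤ Q) :
    c1 * q * (a * b * s ^ 2) ≤ Q * (s * v) * (b ^ 2 * s ^ 2 + a + q) := by
  have h1 : s * (b * p) ≤ a + q := drop_right hs hw0 e3.le
  have h2 : a ≤ v * (b * s + p) := by linarith
  have h3 : a * (b * s ^ 2) ≤ v * (b * s + p) * (b * s ^ 2) :=
    mul_le_mul_of_nonneg_right h2 (by positivity)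
  have h4 : v * (b * s + p) * (b * s ^ 2) = s * v * (b ^ 2 * s ^ 2 + s * (b * p)) := by ring
  have h5 : s * v * (b ^ 2 * s ^ 2 + s * (b * p)) ≤ s * v * (b ^ 2 * s ^ 2 + a + q) := by
    apply mul_le_mul_of_nonneg_left _ (by positivity)
    linarith
  have h6 : a * (b * s ^ 2) ≤ s * v * (b ^ 2 * s ^ 2 + a + q) := by linarith
  have h7 : c1 * q * (a * b * s ^ 2) ≤ Q * (a * b * s ^ 2) :=
    mul_le_mul_of_nonneg_right hQ (by positivity)
  have hQ0 : 0 < Q := lt_of_lt_of_le (by positivity) hQ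
  have h8 : Q * (a * (b * s ^ 2)) ≤ Q * (s * v * (b ^ 2 * s ^ 2 + a + q)) :=
    mul_le_mul_of_nonneg_left h6 hQ0.le
  linarith [mul_assoc Q (s * v) (b ^ 2 * s ^ 2 + a + q)]

/-- The final comparison: `X` is the quadratic term. -/
theorem finalA {a b c1 C q s X : ℝ} (ha : 0 < a) (hb : 0 < b) (hc1 : 0 < c1) (hC : 0 < C)
    (hq : 0 < q) (hs : 0 < s) (hX : 0 ≤ X)
    (hquad : c1 * q * (a * b * s ^ 2) ≤ X * (b ^ 2 * s ^ 2 + a + q)) (haq : a ≤ q)
    (hs1 : s ≤ c1 / (4 * b) * q) (hqC : 4 * b * C / (c1 * a) ≤ q)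
    (Sb : ℝ) (hSb : Sb = 1 + 4 * (a + C) / (c1 * a * b)) (hqS : b / a * Sb * (a * Sb + C) ≤ q) :
    a * s + C ≤ a / b * (q / s) + X := by
  have hSb1 : 1 ≤ Sb := by rw [hSb]; linarith [show 0 < 4 * (a + C) / (c1 * a * b) by positivity]
  have hz : 0 < a / b * (q / s) := by positivity
  rcases le_or_gt s Sb with h | h
  · have h1 : a * Sb + C ≤ a / b * (q / s) := by
      have h2 : q / Sb ≤ q / s := div_le_div_of_nonneg_left hq.le hs h
      have h3 : a / b * (q / Sb) ≤ a / b * (q / s) := mul_le_mul_of_nonneg_left h2 (by positivity)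
      have h4 : a * Sb + C ≤ a / b * (q / Sb) := by
        have h5 : a / b * (q / Sb) = q * a / (b * Sb) := by field_simp
        rw [h5, le_div_iff₀ (by positivity)]
        have h6 : b / a * Sb * (a * Sb + C) * a ≤ q * a := mul_le_mul_of_nonneg_right hqS ha.le
        have h7 : b / a * Sb * (a * Sb + C) * a = (a * Sb + C) * (b * Sb) := by field_simp
        linarith
      linarith
    have h2 : a * s ≤ a * Sb := mul_le_mul_of_nonneg_left h ha.le
    linarith
  · have hs1' : 1 ≤ s := by linarith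
    rcases le_or_gt (b ^ 2 * s ^ 2) (a + q) with h2 | h2
    · -- `X ≥ c1 a b s^2 / 4`
      have h3 : c1 * q * (a * b * s ^ 2) ≤ X * (4 * q) := by
        have : X * (b ^ 2 * s ^ 2 + a + q) ≤ X * (4 * q) := by
          apply mul_le_mul_of_nonneg_left _ hX
          linarith
        linarith
      have h4 : c1 * (a * b * s ^ 2) ≤ 4 * X := by
        have h5 : q * (c1 * (a * b * s ^ 2)) ≤ q * (4 * X) := by linarith
        exact le_of_mul_le_mul_left h5 hq
      have h5 : 4 * (a + C) ≤ s * (c1 * a * b) := by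
        have h6 : 4 * (a + C) / (c1 * a * b) ≤ s := by linarith
        rwa [div_le_iff₀ (by positivity)] at h6
      have h6 : 4 * (a + C) * s ≤ s * (c1 * a * b) * s := mul_le_mul_of_nonneg_right h5 hs.le
      have h7 : C * 1 ≤ C * s := mul_le_mul_of_nonneg_left hs1' hC.le
      nlinarith
    · have h3 : c1 * q * (a * b * s ^ 2) ≤ X * (2 * (b ^ 2 * s ^ 2)) := by
        have : X * (b ^ 2 * s ^ 2 + a + q) ≤ X * (2 * (b ^ 2 * s ^ 2)) := by
          apply mul_le_mul_of_nonneg_left _ hX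
          linarith
        linarith
      have h4 : c1 * q * a ≤ X * (2 * b) := by
        have h5 : (b * s ^ 2) * (c1 * q * a) ≤ (b * s ^ 2) * (X * (2 * b)) := by
          have e1 : (b * s ^ 2) * (c1 * q * a) = c1 * q * (a * b * s ^ 2) := by ring
          have e2 : (b * s ^ 2) * (X * (2 * b)) = X * (2 * (b ^ 2 * s ^ 2)) := by ring
          linarith
        exact le_of_mul_le_mul_left h5 (by positivity)
      have h5 : 4 * b * C ≤ q * (c1 * a) := by rwa [div_le_iff₀ (by positivity)] at hqC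
      have h6 : s * (4 * b) ≤ c1 * q := by
        have : c1 / (4 * b) * q * (4 * b) = c1 * q := by field_simp
        have := mul_le_mul_of_nonneg_right hs1 (show 0 ≤ 4 * b by positivity)
        linarith
      have h7 : a * s * (4 * b) ≤ a * (c1 * q) := by
        have := mul_le_mul_of_nonneg_left h6 ha.le
        linarith [mul_assoc a s (4 * b)]
      have h8 : (a * s + C) * (4 * b) ≤ X * (4 * b) := by
        have e1 : (a * s + C) * (4 * b) = a * s * (4 * b) + 4 * b * C := by ring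
        have e2 : X * (4 * b) = 2 * (X * (2 * b)) := by ring
        linarith
      have h9 : a * s + C ≤ X := le_of_mul_le_mul_right h8 (by positivity)
      linarith

end Pool.Agent.RatExo
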