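import Pool.Agent.Lib_helper9.Rat.A3

/-!
The equation `x_n (b x_{n-2} + x_{n-4}) = a + x_{n-1}`: the two regimes and the step.
-/

set_option autoImplicit false

namespace Pool.Agent.RatExo

open Filter

/-- Regime I. -/
theorem regA_I {a b c1 c : ℝ} (ha : 0 < a) (hb : 0 < b) (hc1 : 0 < c1) (hc : 0 < c) :
    ∃ ε > 0, ∀ᶠ M : ℝ in atTop, ∀ y, WinA a b M y → c1 * M ≤ y 13 → c * M ≤ y 6 →
      y 7 ≤ ε * y 6 →
      y 13 + (b + 1 / b) * y 12 ≤ y 6 + (b + 1 / b) * y 5 ∧
      (y 7 ≤ 1 → (1 + 1 / (6 * b ^ 2 + 4)) * (y 13 + (b + 1 / b) * y 12) ≤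
        y 6 + (b + 1 / b) * y 5) := by
  set T1 : ℝ := 2 / c1 with hT1
  have T1pos : 0 < T1 := by positivity
  set A : ℝ := a + T1 / b with hA
  have Apos : 0 < A := by positivity
  set T0 : ℝ := 2 / (b * c) with hT0
  have T0pos : 0 < T0 := by positivity
  set C13 : ℝ := (b + 1) / (b * c) with hC13
  have C13pos : 0 < C13 := by positivity
  set D : ℝ := 2 * (b + C13) with hD
  have Dpos : 0 < D := by positivity
  set W0 : ℝ := (a + T0) / b * D with hW0
  set σ : ℝ := c / (b + 1) with hσ
  have σpos : 0 < σ := by positivity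
  set W : ℝ := a + T1 with hW
  set U : ℝ := (a + 1) / b with hU
  set B : ℝ := (a + W) * (a + U) * D / c with hB
  set C : ℝ := a * (b ^ 2 + 1) / b * W0 + b * (a + T1) / σ + A * (b ^ 3 * W + T0) + b ^ 2 * B
    with hC
  have Wpos : 0 < W := by positivity
  have Upos : 0 < U := by positivity
  have Bpos : 0 < B := by positivity
  have W0pos : 0 < W0 := by positivity
  have Cpos : 0 < C := by positivity
  set Sb : ℝ := 1 + 4 * (a + C) / (c1 * a * b) with hSb
  set ε : ℝ := min 1 (min (1 / (2 * C13 * a)) (c1 / (4 * b))) with hε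
  have εpos : 0 < ε := lt_min one_pos (lt_min (by positivity) (by positivity))
  refine ⟨ε, εpos, ?_⟩
  filter_upwards [eventually_ge_atTop (1 : ℝ), eventually_ge_atTop a,
    eventually_ge_atTop (1 / c), eventually_ge_atTop (a / c),
    eventually_ge_atTop (4 * b * C / (c1 * a) / c),
    eventually_ge_atTop (b / a * Sb * (a * Sb + C) / c),
    eventually_ge_atTop ((a + C) * (2 * b / a) / c)] with
    M hM1 hMa hMc hMac hMC hMS hMg y h hQ hq hs
  have hM : 0 < M := by linarith
  have e0 : y 4 * (b * y 2 + y 0) = a + y 3 := h.eq 0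
  have e1 : y 5 * (b * y 3 + y 1) = a + y 4 := h.eq 1
  have e2 : y 6 * (b * y 4 + y 2) = a + y 5 := h.eq 2
  have e3 : y 7 * (b * y 5 + y 3) = a + y 6 := h.eq 3
  have e4 : y 8 * (b * y 6 + y 4) = a + y 7 := h.eq 4
  have e5 : y 9 * (b * y 7 + y 5) = a + y 8 := h.eq 5
  have e6 : y 10 * (b * y 8 + y 6) = a + y 9 := h.eq 6
  have e7 : y 11 * (b * y 9 + y 7) = a + y 10 := h.eq 7
  have e8 : y 12 * (b * y 10 + y 8) = a + y 11 := h.eq 8
  have e9 : y 13 * (b * y 11 + y 9) = a + y 12 := h.eq 9
  have hp := h.pos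
  have p0 := hp 0
  have p1 := hp 1
  have p2 := hp 2
  have p3 := hp 3
  have p4 := hp 4
  have p5 := hp 5
  have p6 := hp 6
  have p7 := hp 7
  have p8 := hp 8
  have p9 := hp 9
  have p10 := hp 10
  have p11 := hp 11
  have p12 := hp 12
  have p13 := hp 13
  have l0 := h.le 0 (by norm_num)
  have l2 := h.le 2 (by norm_num)
  have l3 := h.le 3 (by norm_num)
  have l5 := h.le 5 (by norm_num)
  have l6 := h.le 6 (by norm_num)
  have l12 := h.le 12 (by norm_num)
  have l13 := h.le 13 (by norm_num)
  clear h hp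
  generalize y 0 = y0 at *
  generalize y 1 = y1 at *
  generalize y 2 = v0 at *
  generalize y 3 = w0 at *
  generalize y 4 = t0 at *
  generalize y 5 = p at *
  generalize y 6 = q at *
  generalize y 7 = s at *
  generalize y 8 = u at *
  generalize y 9 = v at *
  generalize y 10 = w at *
  generalize y 11 = t at *
  generalize y 12 = P at *
  generalize y 13 = Q at *
  have hcM : 0 < c * M := by positivity
  have hc1M : 0 < c1 * M := by positivity
  -- size of q
  have q1 : 1 ≤ q := by
    rw [div_le_iff₀ hc] at hMc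
    linarith [mul_comm c M]
  have qa : a ≤ q := by
    rw [div_le_iff₀ hc] at hMac
    linarith [mul_comm c M]
  have qC : 4 * b * C / (c1 * a) ≤ q := by
    rw [div_le_iff₀ hc] at hMC
    linarith [mul_comm c M]
  have qS : b / a * Sb * (a * Sb + C) ≤ q := by
    rw [div_le_iff₀ hc] at hMS
    linarith [mul_comm c M]
  have qg : (a + C) * (2 * b / a) ≤ q := by
    rw [div_le_iff₀ hc] at hMg
    linarith [mul_comm c M]
  -- sigma
  have hσs : σ ≤ s := by
    have h1 : s * (b * p + w0) ≤ s * ((b + 1) * M) :=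
      mul_le_mul_of_nonneg_left (comb_le hb l5 l3) p7.le
    have h2 : c * M ≤ s * (b + 1) * M := by linarith [mul_assoc s (b + 1) M]
    have h3 : c ≤ s * (b + 1) := le_of_mul_le_mul_right h2 hM
    rw [hσ, div_le_iff₀ (by positivity)]
    exact h3
  -- z
  set z : ℝ := q / s with hz
  have hzs : z * s = q := by rw [hz]; field_simp
  have hzε : 1 / ε ≤ z := by
    rw [hz, div_le_div_iff₀ εpos p7]
    linarith [mul_comm ε q]
  have hz1 : 1 ≤ z := by
    refine le_trans ?_ hzε
    rw [le_div_iff₀ εpos]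
    have : ε ≤ 1 := min_le_left _ _
    linarith
  have hz0 : 0 < z := by linarith
  have hz2 : 2 * C13 * a ≤ z := by
    refine le_trans ?_ hzε
    rw [le_div_iff₀ εpos]
    have h1 : ε ≤ 1 / (2 * C13 * a) := (min_le_right _ _).trans (min_le_left _ _)
    rw [le_div_iff₀ (by positivity)] at h1
    linarith [mul_comm ε (2 * C13 * a)]
  have hs1 : s ≤ c1 / (4 * b) * q := by
    have h1 : ε ≤ c1 / (4 * b) := (min_le_right _ _).trans (min_le_right _ _)
    exact hs.trans (mul_le_mul_of_nonneg_right h1 p6.le)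
  have hsq : s ≤ q := by
    have h1 : ε * q ≤ 1 * q := mul_le_mul_of_nonneg_right (min_le_left _ _) p6.le
    linarith
  obtain ⟨bt0, bp, bw0⟩ := boundsA ha hb hc hM hMa p1 p2 p4 p5 p7 l2 l0 l5 e0 e1 e2 e3 hq hzs
    hz1 hz2
  -- b t + v bounded
  have k1 : c1 * M * (b * t + v) ≤ 2 * M := by
    have : c1 * M * (b * t + v) ≤ Q * (b * t + v) :=
      mul_le_mul_of_nonneg_right hQ (by positivity)
    linarith
  have k2 : b * t + v ≤ T1 := by
    rw [hT1, le_div_iff₀ hc1]
    have h2 : (b * t + v) * c1 * M ≤ 2 * M := by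
      have e : (b * t + v) * c1 * M = c1 * M * (b * t + v) := by ring
      linarith
    exact le_of_mul_le_mul_right h2 hM
  have bv : v ≤ T1 := by
    have : 0 < b * t := by positivity
    linarith
  have bt : t ≤ T1 / b := by rw [le_div_iff₀ hb]; linarith [mul_comm b t]
  have bPu : P * u ≤ A := by
    have h1 : P * u ≤ a + t := drop_left p12 (show 0 < b * w by positivity) e8.le
    rw [hA]; linarith
  have bw : w ≤ W := by
    have h1 : w * q ≤ a + v := drop_left p10 (show 0 < b * u by positivity) e6.le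
    have h2 : w * 1 ≤ w * q := mul_le_mul_of_nonneg_left q1 p10.le
    rw [hW]; linarith
  have bu : u ≤ U := by
    have h1 : u * (b * q) ≤ a + s := drop_right p8 p4 e4.le
    have h2 : a * 1 ≤ a * q := mul_le_mul_of_nonneg_left q1 ha.le
    have h3 : (u * b) * q ≤ (a + 1) * q := by linarith [mul_assoc u b q, add_mul a 1 q]
    have h4 : u * b ≤ a + 1 := le_of_mul_le_mul_right h3 p6
    rw [hU, le_div_iff₀ hb]
    exact h4
  have bQtv : Q * (t * v) ≤ B := by
    have h1 : t * s ≤ a + W := by
      have := drop_left p11 (show 0 < b * v by positivity) e7.le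
      linarith
    have h2 : v * p ≤ a + U := by
      have := drop_left p9 (show 0 < b * s by positivity) e5.le
      linarith
    have h3 : t * s * (v * p) ≤ (a + W) * (a + U) :=
      mul_le_mul h1 h2 (by positivity) (by positivity)
    have h4 : z ≤ p * D := by rwa [div_le_iff₀ Dpos] at bp
    have h5 : t * v * q ≤ (a + W) * (a + U) * D := by
      have h6 : t * v * s * z ≤ t * v * s * (p * D) := mul_le_mul_of_nonneg_left h4 (by positivity)
      have h7 : t * v * s * z = t * v * q := by rw [← hzs]; ring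
      have h8 : t * v * s * (p * D) = t * s * (v * p) * D := by ring
      have h9 : t * s * (v * p) * D ≤ (a + W) * (a + U) * D :=
        mul_le_mul_of_nonneg_right h3 Dpos.le
      linarith
    rw [hB, le_div_iff₀ hc]
    have h10 : Q * c ≤ q := by
      have := mul_le_mul_of_nonneg_left l13 hc.le
      linarith [mul_comm Q c]
    have h11 : (t * v) * (Q * c) ≤ (t * v) * q := mul_le_mul_of_nonneg_left h10 (by positivity)
    linarith [mul_comm Q (t * v), mul_assoc (t * v) Q c]
  have hmain := mainA ha hb σpos hz0 p8 p9 p10 p11 p12 p13 Apos p4 Wpos T0pos e3 e4 e6 e7 e8 e9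
    hzs hσs bw0 bv bw bt0 bPu bQtv
  have hQq : c1 * q ≤ Q := by
    have := mul_le_mul_of_nonneg_left l6 hc1.le
    linarith
  have hquad := quadA ha hb hc1 p6 p7 p8 p9 p3 e3 e5 hQq
  have hX : 0 ≤ Q * (s * v) := by positivity
  have hfin := finalA ha hb hc1 Cpos p6 p7 hX hquad qa hs1 qC Sb hSb qS
  -- the difference of the functionals
  have hdiff : a * b * (q + (b + 1 / b) * p) - a * b * (Q + (b + 1 / b) * P) =
      a * b * q + a * (b ^ 2 + 1) * p - (a * b * Q + a * (b ^ 2 + 1) * P) := by
    field_simp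
  have hab : 0 < a * b := by positivity
  have hge : a * b * (Q + (b + 1 / b) * P) ≤ a * b * (q + (b + 1 / b) * p) := by linarith
  refine ⟨le_of_mul_le_mul_left hge hab, ?_⟩
  intro hs2
  -- the gain
  have hzq : q ≤ z := by
    have : z * s ≤ z * 1 := mul_le_mul_of_nonneg_left hs2 hz0.le
    linarith
  have g1 : a * s + C ≤ a / (2 * b) * z := by
    have h1 : a * s ≤ a * 1 := mul_le_mul_of_nonneg_left hs2 ha.le
    have h2 : a / (2 * b) * ((a + C) * (2 * b / a)) ≤ a / (2 * b) * z :=
      mul_le_mul_of_nonneg_left (qg.trans hzq) (by positivity)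
    have h3 : a / (2 * b) * ((a + C) * (2 * b / a)) = a + C := by field_simp
    linarith
  have g2 : a / (2 * b) * z ≤
      a * b * (q + (b + 1 / b) * p) - a * b * (Q + (b + 1 / b) * P) := by
    have h3 : a / b * z = 2 * (a / (2 * b) * z) := by field_simp
    linarith
  -- upper bound for the functional
  have g3 : b * p ≤ 2 * z := by
    have h1 : s * (b * p) ≤ a + q := drop_right p7 p3 e3.le
    have h2 : s * (b * p) ≤ s * (2 * z) := by linarith [mul_comm s z]
    exact le_of_mul_le_mul_left h2 p7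
  have g4 : a * b * (q + (b + 1 / b) * p) ≤ (6 * b ^ 2 + 4) * (a / (2 * b) * z) := by
    have h1 : a * b * (q + (b + 1 / b) * p) = a * b * q + a * (b ^ 2 + 1) / b * (b * p) := by
      field_simp
    have h2 : a * (b ^ 2 + 1) / b * (b * p) ≤ a * (b ^ 2 + 1) / b * (2 * z) :=
      mul_le_mul_of_nonneg_left g3 (by positivity)
    have h3 : a * b * q ≤ a * b * z := mul_le_mul_of_nonneg_left hzq hab.le
    have h4 : (6 * b ^ 2 + 4) * (a / (2 * b) * z) = a * b * z + a * (b ^ 2 + 1) / b * (2 * z) := by
      field_simp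
      ring
    linarith
  set F1 : ℝ := q + (b + 1 / b) * p with hF1
  set F2 : ℝ := Q + (b + 1 / b) * P with hF2
  have g5 : a * b * F1 ≤ (6 * b ^ 2 + 4) * (a * b * F1 - a * b * F2) :=
    g4.trans (mul_le_mul_of_nonneg_left g2 (by positivity))
  have g6 : a * b * F2 ≤ (6 * b ^ 2 + 4) * (a * b * F1 - a * b * F2) := by linarith
  have g7 : F2 ≤ (6 * b ^ 2 + 4) * (F1 - F2) := by
    have : a * b * F2 ≤ a * b * ((6 * b ^ 2 + 4) * (F1 - F2)) := by
      have e : a * b * ((6 * b ^ 2 + 4) * (F1 - F2)) =
        (6 * b ^ 2 + 4) * (a * b * F1 - a * b * F2) := by ring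
      linarith
    exact le_of_mul_le_mul_left this hab
  have g8 : F2 / (6 * b ^ 2 + 4) ≤ F1 - F2 := by
    rw [div_le_iff₀ (by positivity)]
    linarith [mul_comm (F1 - F2) (6 * b ^ 2 + 4)]
  have g9 : (1 + 1 / (6 * b ^ 2 + 4)) * F2 = F2 + F2 / (6 * b ^ 2 + 4) := by ring
  linarith

/-- Regime II. -/
theorem regA_II {a b c1 c ε : ℝ} (ha : 0 < a) (hb : 0 < b) (hc1 : 0 < c1) (hc : 0 < c)
    (hε : 0 < ε) :
    ∀ᶠ M : ℝ in atTop, ∀ y, WinA a b M y → c1 * M ≤ y 13 → c * M ≤ y 6 →
      ε * y 6 ≤ y 7 →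
      3 / 2 * (y 13 + (b + 1 / b) * y 12) ≤ y 7 + (b + 1 / b) * y 6 ∧ ε / (2 * b) ≤ y 8 := by
  set l : ℝ := b + 1 / b with hl
  have hlb : b ≤ l := by rw [hl]; linarith [show 0 < 1 / b by positivity]
  have hl2 : 2 ≤ l := by
    rw [hl, ← sub_nonneg]
    have : b + 1 / b - 2 = (b - 1) ^ 2 / b := by field_simp; ring
    rw [this]
    positivity
  have lpos : 0 < l := by linarith
  set T1 : ℝ := 2 / c1 with hT1
  have T1pos : 0 < T1 := by positivity
  set A : ℝ := a + T1 / b with hA
  have Apos : 0 < A := by positivity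
  set T0 : ℝ := 2 / (b * c) with hT0
  have T0pos : 0 < T0 := by positivity
  set P1 : ℝ := A * (2 * b / ε) with hP1
  have P1pos : 0 < P1 := by positivity
  set P2 : ℝ := 2 / (b * (ε * c)) with hP2
  have P2pos : 0 < P2 := by positivity
  set U1 : ℝ := 2 / (b * c) with hU1
  have U1pos : 0 < U1 := by positivity
  set V1 : ℝ := (a + U1) / (b * (ε * c)) with hV1
  have V1pos : 0 < V1 := by positivity
  set V2 : ℝ := V1 * P2 / b + b * T1 * V1 with hV2
  have V2pos : 0 < V2 := by positivity
  set V3 : ℝ := a * T0 + (a + (a + T1)) * (2 * b / ε) + V2 + a ^ 2 * 0 with hV3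
  have V3pos : 0 < V3 := by positivity
  set K : ℝ := 3 / 2 * (V3 / a + 1) / l + 3 / 2 * (l * P1) + 3 / 2 * P1 with hK
  have Kpos : 0 < K := by positivity
  filter_upwards [eventually_ge_atTop (1 : ℝ), eventually_ge_atTop a,
    eventually_ge_atTop (1 / c), eventually_ge_atTop (T0 / b / c),
    eventually_ge_atTop (2 * K / c)] with
    M hM1 hMa hMc hMT hMK y h hQ hq hs
  have hM : 0 < M := by linarith
  have e2 : y 6 * (b * y 4 + y 2) = a + y 5 := h.eq 2
  have e3 : y 7 * (b * y 5 + y 3) = a + y 6 := h.eq 3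
  have e4 : y 8 * (b * y 6 + y 4) = a + y 7 := h.eq 4
  have e5 : y 9 * (b * y 7 + y 5) = a + y 8 := h.eq 5
  have e6 : y 10 * (b * y 8 + y 6) = a + y 9 := h.eq 6
  have e7 : y 11 * (b * y 9 + y 7) = a + y 10 := h.eq 7
  have e8 : y 12 * (b * y 10 + y 8) = a + y 11 := h.eq 8
  have e9 : y 13 * (b * y 11 + y 9) = a + y 12 := h.eq 9
  have hp := h.pos
  have p2 := hp 2
  have p3 := hp 3
  have p4 := hp 4
  have p5 := hp 5
  have p6 := hp 6
  have p7 := hp 7
  have p8 := hp 8
  have p9 := hp 9
  have p10 := hp 10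
  have p11 := hp 11
  have p12 := hp 12
  have p13 := hp 13
  have l5 := h.le 5 (by norm_num)
  have l6 := h.le 6 (by norm_num)
  have l7 := h.le 7 (by norm_num)
  have l12 := h.le 12 (by norm_num)
  have l13 := h.le 13 (by norm_num)
  clear h hp
  generalize y 2 = v0 at *
  generalize y 3 = w0 at *
  generalize y 4 = t0 at *
  generalize y 5 = p at *
  generalize y 6 = q at *
  generalize y 7 = s at *
  generalize y 8 = u at *
  generalize y 9 = v at *
  generalize y 10 = w at *
  generalize y 11 = t at *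
  generalize y 12 = P at *
  generalize y 13 = Q at *
  have hcM : 0 < c * M := by positivity
  have hc1M : 0 < c1 * M := by positivity
  have q1 : 1 ≤ q := by
    rw [div_le_iff₀ hc] at hMc
    linarith [mul_comm c M]
  have qT : T0 ≤ b * q := by
    rw [div_le_iff₀ hc, div_le_iff₀ hb] at hMT
    have := mul_le_mul_of_nonneg_left hq hb.le
    linarith [mul_comm (M * c) b, mul_comm c M]
  have qK : 2 * K ≤ q := by
    rw [div_le_iff₀ hc] at hMK
    linarith [mul_comm c M]
  -- t0 bounded
  have bt0 : t0 ≤ T0 := by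
    have h1 : q * (b * t0) ≤ a + p := drop_right p6 p2 e2.le
    have h2 : c * M * (b * t0) ≤ q * (b * t0) := mul_le_mul_of_nonneg_right hq (by positivity)
    rw [hT0, le_div_iff₀ (by positivity)]
    have e : c * M * (b * t0) = t0 * (b * c) * M := by ring
    have h3 : t0 * (b * c) * M ≤ 2 * M := by linarith
    exact le_of_mul_le_mul_right h3 hM
  -- lower bound for u
  have hu : ε / (2 * b) ≤ u := by
    rw [div_le_iff₀ (by positivity)]
    have h1 : u * (b * q + t0) ≤ u * (2 * b * q) := by
      apply mul_le_mul_of_nonneg_left _ p8.le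
      linarith
    have h2 : ε * q ≤ u * (2 * b) * q := by linarith [mul_assoc u (2 * b) q]
    exact le_of_mul_le_mul_right h2 p6
  refine ⟨?_, hu⟩
  -- b t + v bounded
  have k1 : c1 * M * (b * t + v) ≤ 2 * M := by
    have : c1 * M * (b * t + v) ≤ Q * (b * t + v) :=
      mul_le_mul_of_nonneg_right hQ (by positivity)
    linarith
  have k2 : b * t + v ≤ T1 := by
    rw [hT1, le_div_iff₀ hc1]
    have h2 : (b * t + v) * c1 * M ≤ 2 * M := by
      have e : (b * t + v) * c1 * M = c1 * M * (b * t + v) := by ring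
      linarith
    exact le_of_mul_le_mul_right h2 hM
  have bv : v ≤ T1 := by
    have : 0 < b * t := by positivity
    linarith
  have bt : t ≤ T1 / b := by rw [le_div_iff₀ hb]; linarith [mul_comm b t]
  have bPu : P * u ≤ A := by
    have h1 : P * u ≤ a + t := drop_left p12 (show 0 < b * w by positivity) e8.le
    rw [hA]; linarith
  have bP : P ≤ P1 := by
    have h1 : P * (ε / (2 * b)) ≤ A := by
      have := mul_le_mul_of_nonneg_left hu p12.le
      linarith
    have h2 : P * (ε / (2 * b)) * (2 * b / ε) ≤ A * (2 * b / ε) :=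
      mul_le_mul_of_nonneg_right h1 (by positivity)
    have h3 : P * (ε / (2 * b)) * (2 * b / ε) = P := by field_simp
    rw [hP1]; linarith
  have hsM : ε * c * M ≤ s := by
    have := mul_le_mul_of_nonneg_left hq hε.le
    linarith [mul_assoc ε c M]
  have bp : p ≤ P2 := by
    have h1 : s * (b * p) ≤ a + q := drop_right p7 p3 e3.le
    have h2 : ε * c * M * (b * p) ≤ s * (b * p) := mul_le_mul_of_nonneg_right hsM (by positivity)
    rw [hP2, le_div_iff₀ (by positivity)]
    have e : ε * c * M * (b * p) = p * (b * (ε * c)) * M := by ring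
    have h3 : p * (b * (ε * c)) * M ≤ 2 * M := by linarith
    exact le_of_mul_le_mul_right h3 hM
  have bu : u ≤ U1 := by
    have h1 : u * (b * q) ≤ a + s := drop_right p8 p4 e4.le
    have h2 : u * (b * (c * M)) ≤ u * (b * q) := by
      apply mul_le_mul_of_nonneg_left _ p8.le
      exact mul_le_mul_of_nonneg_left hq hb.le
    rw [hU1, le_div_iff₀ (by positivity)]
    have e : u * (b * (c * M)) = u * (b * c) * M := by ring
    have h3 : u * (b * c) * M ≤ 2 * M := by linarith
    exact le_of_mul_le_mul_right h3 hM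
  have bvM : v * M ≤ V1 := by
    have h1 : v * (b * s) ≤ a + u := drop_right p9 p5 e5.le
    have h2 : v * (b * (ε * c * M)) ≤ v * (b * s) := by
      apply mul_le_mul_of_nonneg_left _ p9.le
      exact mul_le_mul_of_nonneg_left hsM hb.le
    rw [hV1, le_div_iff₀ (by positivity)]
    have e : v * (b * (ε * c * M)) = v * M * (b * (ε * c)) := by ring
    linarith
  have bQv : Q * v ≤ V1 := by
    have := mul_le_mul_of_nonneg_right l13 p9.le
    linarith [mul_comm M v]
  -- the identity
  have id1 : Q * (a * b + b * w + s * v - b ^ 2 * t * v) = s * (a + P) := by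
    linear_combination s * e9 - Q * b * e7
  have id2 : b * (s * v) = a + u - v * p := by linear_combination e5
  have m1 : Q * (a * b + a / b) ≤ s * (a + P) + V2 := by
    have h1 : Q * (s * v) = Q * (a + u) / b - Q * v * p / b := by
      have : s * v = (a + u - v * p) / b := by rw [← id2]; field_simp
      rw [this]; ring
    have h2 : Q * v * p / b ≤ V1 * P2 / b := by
      apply div_le_div_of_nonneg_right _ hb.le
      exact mul_le_mul bQv bp p5.le V1pos.le
    have h3 : Q * (b ^ 2 * t * v) ≤ b * T1 * V1 := by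
      have e : Q * (b ^ 2 * t * v) = b * (b * t) * (Q * v) := by ring
      rw [e]
      have h4 : b * t ≤ T1 := by linarith
      have h5 : b * (b * t) ≤ b * T1 := mul_le_mul_of_nonneg_left h4 hb.le
      exact mul_le_mul h5 bQv (by positivity) (by positivity)
    have h4 : 0 < Q * (b * w) := by positivity
    have h5 : 0 < Q * u / b := by positivity
    have h6 : Q * (a * b + b * w + s * v - b ^ 2 * t * v) =
        Q * (a * b) + Q * (b * w) + Q * (s * v) - Q * (b ^ 2 * t * v) := by ring
    have h7 : Q * (a * b + a / b) = Q * (a * b) + Q * a / b := by ring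
    have h8 : Q * (a + u) / b = Q * a / b + Q * u / b := by ring
    rw [hV2]
    linarith
  have m2 : s * P ≤ a * (b * q + T0) + (a + (a + T1)) * (2 * b / ε) := by
    -- `P u = a + t - P b w ≤ a + t`
    have h1 : P * u ≤ a + t := drop_left p12 (show 0 < b * w by positivity) e8.le
    have h2 : t * s ≤ a + w := drop_left p11 (show 0 < b * v by positivity) e7.le
    have h3 : w ≤ a + T1 := by
      have h1 : w * q ≤ a + v := drop_left p10 (show 0 < b * u by positivity) e6.le
      have h2 : w * 1 ≤ w * q := mul_le_mul_of_nonneg_left q1 p10.le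
      linarith
    have h4 : s / u ≤ b * q + t0 := by
      rw [div_le_iff₀ p8]
      linarith [mul_comm u (b * q + t0)]
    have h5 : s * P = s / u * (P * u) := by field_simp
    have h6 : s / u * (P * u) ≤ s / u * (a + t) := mul_le_mul_of_nonneg_left h1 (by positivity)
    have h7 : s / u * (a + t) = s / u * a + (t * s) / u := by ring
    have h8 : s / u * a ≤ (b * q + t0) * a := mul_le_mul_of_nonneg_right h4 ha.le
    have h9 : (t * s) / u ≤ (a + (a + T1)) * (2 * b / ε) := by
      rw [div_le_iff₀ p8]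
      have h10 : 1 ≤ 2 * b / ε * u := by
        have := mul_le_mul_of_nonneg_left hu (show 0 ≤ 2 * b / ε by positivity)
        have e : 2 * b / ε * (ε / (2 * b)) = 1 := by field_simp
        linarith
      have h11 : (a + (a + T1)) * 1 ≤ (a + (a + T1)) * (2 * b / ε * u) :=
        mul_le_mul_of_nonneg_left h10 (by positivity)
      have e : (a + (a + T1)) * (2 * b / ε) * u = (a + (a + T1)) * (2 * b / ε * u) := by ring
      linarith
    have h12 : (b * q + t0) * a ≤ (b * q + T0) * a := by
      apply mul_le_mul_of_nonneg_right _ ha.le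
      linarith
    linarith [mul_comm a (b * q + T0)]
  have m3 : Q * (a * l) ≤ a * s + a * (b * q) + V3 := by
    have e : a * l = a * b + a / b := by rw [hl]; ring
    rw [e, hV3]
    linarith [mul_add s a P, mul_comm s a, mul_add a (b * q) T0]
  have m4 : Q * l ≤ s + b * q + V3 / a := by
    have h1 : a * (Q * l) ≤ a * (s + b * q + V3 / a) := by
      have e : a * (s + b * q + V3 / a) = a * s + a * (b * q) + V3 := by field_simp
      linarith [mul_left_comm a Q l]
    exact le_of_mul_le_mul_left h1 ha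
  have m5 : Q ≤ s / 2 + q + V3 / a / l := by
    have h1 : l * Q ≤ l * (s / 2 + q + V3 / a / l) := by
      have e : l * (s / 2 + q + V3 / a / l) = l * s / 2 + l * q + V3 / a := by field_simp
      have h2 : 2 * s ≤ l * s := mul_le_mul_of_nonneg_right hl2 p7.le
      have h3 : b * q ≤ l * q := mul_le_mul_of_nonneg_right hlb p6.le
      linarith [mul_comm l Q]
    exact le_of_mul_le_mul_left h1 lpos
  have m6 : l * P ≤ l * P1 := mul_le_mul_of_nonneg_left bP lpos.le
  have m7 : 2 * q ≤ l * q := mul_le_mul_of_nonneg_right hl2 p6.le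
  have m8 : 3 / 2 * (V3 / a / l) + 3 / 2 * (l * P1) ≤ K := by
    rw [hK]
    have : 3 / 2 * (V3 / a + 1) / l = 3 / 2 * (V3 / a / l) + 3 / 2 * (1 / l) := by ring
    have : 0 < 3 / 2 * (1 / l) := by positivity
    have : 0 < 3 / 2 * P1 := by positivity
    linarith
  linarith

end Pool.Agent.RatExo
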