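import Mathlib

/-!
The chain lemma: a functional `F` which can be followed backward along a solution, never decreasing
as long as the control quantity `S` is not small, and with a fixed gain otherwise.
-/

set_option autoImplicit false

namespace Pool.Agent.RatExo

/-- The inductive core. -/
theorem chain_core {x F S : ℕ → ℝ} {lam del s0 : ℝ} {L : ℕ} (hdel : 0 < del) (hs0 : 0 < s0)
    (hF : ∀ n M, (∀ m ≤ n, x m ≤ M) → F n ≤ (1 + lam) * M)
    (hstep : ∀ s > 0, ∃ K s', 0 < s' ∧ ∀ n M, L ≤ n → K ≤ M → (∀ m ≤ n, x m ≤ M) → M ≤ F n →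
      s ≤ S n → ∃ n' < n, (s' ≤ S n' ∧ (1 + del) * F n ≤ F n') ∨ (s0 ≤ S n' ∧ F n ≤ F n'))
    {k : ℕ} (hk : 1 + lam < (1 + del) ^ k) (Q : ℝ) (hQ : ∀ n < L, F n ≤ Q) :
    ∀ j ≤ k, ∀ s > 0, s ≤ s0 → ∃ K, ∀ M, K ≤ M → Q < M → ∀ N, (∀ m ≤ N, x m ≤ M) →
      ∀ n ≤ N, ¬ (M * (1 + del) ^ (k - j) ≤ F n ∧ s ≤ S n) := by
  intro j
  induction j with
  | zero =>
    intro _ s _ _
    refine ⟨1, fun M hM _ N hx n hn h => ?_⟩
    have h1 := hF n M (fun m hm => hx m (hm.trans hn))
    have h2 := h.1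
    have hM0 : 0 < M := by linarith
    have h3 : (1 + lam) * M < (1 + del) ^ k * M := mul_lt_mul_of_pos_right hk hM0
    simp only [Nat.sub_zero] at h2
    linarith [mul_comm M ((1 + del) ^ k)]
  | succ j ih =>
    intro hj s hs hss
    obtain ⟨K1, s', hs', h1⟩ := hstep s hs
    obtain ⟨K2, h2⟩ := ih (by omega) (min s' s0) (lt_min hs' hs0) (min_le_right _ _)
    refine ⟨max 1 (max K1 K2), fun M hM hQM N hx => ?_⟩
    have hM1 : 1 ≤ M := (le_max_left _ _).trans hM
    have hMK1 : K1 ≤ M := ((le_max_left _ _).trans (le_max_right _ _)).trans hM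
    have hMK2 : K2 ≤ M := ((le_max_right _ _).trans (le_max_right _ _)).trans hM
    intro n
    induction n using Nat.strong_induction_on with
    | _ n ihn =>
      intro hn h
      obtain ⟨ha, hb⟩ := h
      have hp1 : (1 : ℝ) ≤ (1 + del) ^ (k - (j + 1)) := one_le_pow₀ (by linarith)
      have hMF : M ≤ F n := by
        have : M * 1 ≤ M * (1 + del) ^ (k - (j + 1)) :=
          mul_le_mul_of_nonneg_left hp1 (by linarith)
        linarith
      by_cases hnL : n < L
      · have := hQ n hnL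
        linarith
      · obtain ⟨n', hn', h3⟩ := h1 n M (by omega) hMK1 (fun m hm => hx m (hm.trans hn)) hMF hb
        rcases h3 with ⟨h4, h5⟩ | ⟨h4, h5⟩
        · refine h2 M hMK2 hQM N hx n' (by omega) ⟨?_, (min_le_left _ _).trans h4⟩
          have e : k - j = (k - (j + 1)) + 1 := by omega
          rw [e, pow_succ]
          have : (1 + del) * (M * (1 + del) ^ (k - (j + 1))) ≤ (1 + del) * F n :=
            mul_le_mul_of_nonneg_left ha (by linarith)
          linarith [mul_assoc M ((1 + del) ^ (k - (j + 1))) (1 + del),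
            mul_comm (1 + del) (M * (1 + del) ^ (k - (j + 1)))]
        · exact ihn n' hn' (by omega) ⟨ha.trans h5, hss.trans h4⟩

theorem chain {x F S : ℕ → ℝ} {lam del s0 : ℝ} {L : ℕ} (hdel : 0 < del) (hs0 : 0 < s0)
    (hF : ∀ n M, (∀ m ≤ n, x m ≤ M) → F n ≤ (1 + lam) * M)
    (hrec : ∀ n, L ≤ n → 1 ≤ x n → (∀ m < n, x m ≤ x n) → x n ≤ F n ∧ s0 ≤ S n)
    (hstep : ∀ s > 0, ∃ K s', 0 < s' ∧ ∀ n M, L ≤ n → K ≤ M → (∀ m ≤ n, x m ≤ M) → M ≤ F n →
      s ≤ S n → ∃ n' < n, (s' ≤ S n' ∧ (1 + del) * F n ≤ F n') ∨ (s0 ≤ S n' ∧ F n ≤ F n')) :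
    ∃ B, ∀ n, x n ≤ B := by
  obtain ⟨k, hk⟩ := pow_unbounded_of_one_lt (1 + lam) (show 1 < 1 + del by linarith)
  -- bounds on the initial segment
  obtain ⟨Q, hQ⟩ : ∃ Q, ∀ n < L, F n ≤ Q := by
    have : (F '' (Set.Iio L)).Finite := (Set.finite_Iio L).image F
    obtain ⟨Q, hQ⟩ := this.bddAbove
    exact ⟨Q, fun n hn => hQ ⟨n, hn, rfl⟩⟩
  obtain ⟨R, hR⟩ : ∃ R, ∀ n < L, x n ≤ R := by
    have : (x '' (Set.Iio L)).Finite := (Set.finite_Iio L).image x
    obtain ⟨Q, hQ⟩ := this.bddAbove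
    exact ⟨Q, fun n hn => hQ ⟨n, hn, rfl⟩⟩
  obtain ⟨K, hK⟩ := chain_core hdel hs0 hF hstep hk Q hQ k le_rfl s0 hs0 le_rfl
  set B : ℝ := max (max 1 K) (max Q R) with hB
  refine ⟨B, ?_⟩
  intro n
  induction n using Nat.strong_induction_on with
  | _ n ih =>
    by_contra hcon
    push Not at hcon
    have hnL : L ≤ n := by
      by_contra hlt
      push Not at hlt
      have := hR n hlt
      have h2 : R ≤ B := (le_max_right _ _).trans (le_max_right _ _)
      linarith
    have h1B : 1 ≤ B := (le_max_left _ _).trans (le_max_left _ _)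
    have hKB : K ≤ B := (le_max_right _ _).trans (le_max_left _ _)
    have hQB : Q ≤ B := (le_max_left _ _).trans (le_max_right _ _)
    obtain ⟨h1, h2⟩ := hrec n hnL (by linarith) (fun m hm => (ih m hm).trans hcon.le)
    refine hK (x n) (by linarith) (by linarith) n ?_ n le_rfl ⟨?_, h2⟩
    · intro m hm
      rcases Nat.lt_or_ge m n with h | h
      · exact (ih m h).trans hcon.le
      · have : m = n := le_antisymm hm h
        rw [this]
    · simpa using h1

end Pool.Agent.RatExo
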