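import Pool.Agent.Lib_helper9.Rat.A4
import Pool.Agent.Lib_helper9.Rat.Chain

/-!
The equation `x_n (b x_{n-2} + x_{n-4}) = a + x_{n-1}`: boundedness.
-/

set_option autoImplicit false

namespace Pool.Agent.RatExo

open Filter

theorem sigA {a b c M : ℝ} (hb : 0 < b) (ha : 0 < a) (hM : 0 < M) {y : ℕ → ℝ}
    (h : WinA a b M y) (hq : c * M ≤ y 6) : c / (b + 1) ≤ y 7 := by
  have e3 : y 7 * (b * y 5 + y 3) = a + y 6 := h.eq 3
  have h1 : y 7 * (b * y 5 + y 3) ≤ y 7 * ((b + 1) * M) :=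
    mul_le_mul_of_nonneg_left (comb_le hb (h.le 5 (by norm_num)) (h.le 3 (by norm_num)))
      (h.pos 7).le
  have h2 : c * M ≤ y 7 * (b + 1) * M := by linarith [mul_assoc (y 7) (b + 1) M]
  have h3 : c ≤ y 7 * (b + 1) := le_of_mul_le_mul_right h2 hM
  rw [div_le_iff₀ (by positivity)]
  exact h3

/-- The step of the chain argument. -/
theorem stepA {a b s : ℝ} (ha : 0 < a) (hb : 0 < b) (hs : 0 < s) :
    ∃ σ' > 0, ∀ᶠ M : ℝ in atTop, ∀ y, WinA a b M y → M ≤ y 13 + (b + 1 / b) * y 12 → s ≤ y 14 →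
      (σ' ≤ y 7 ∧ (1 + 1 / (6 * b ^ 2 + 4)) * (y 13 + (b + 1 / b) * y 12) ≤
        y 6 + (b + 1 / b) * y 5) ∨
      (1 / (b + 1) ≤ y 7 ∧ y 13 + (b + 1 / b) * y 12 ≤ y 6 + (b + 1 / b) * y 5) ∨
      (σ' ≤ y 8 ∧ (1 + 1 / (6 * b ^ 2 + 4)) * (y 13 + (b + 1 / b) * y 12) ≤
        y 7 + (b + 1 / b) * y 6) := by
  have hl : 0 < b + 1 / b := by positivity
  set c1 : ℝ := s * b / (2 * (s * b + (b + 1 / b))) with hc1
  have c1pos : 0 < c1 := by positivity
  obtain ⟨c, cpos, hc⟩ := pinA ha hb c1pos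
  obtain ⟨ε, εpos, hI⟩ := regA_I ha hb c1pos cpos
  have hII := regA_II ha hb c1pos cpos εpos
  refine ⟨min (c / (b + 1)) (ε / (2 * b)), lt_min (by positivity) (by positivity), ?_⟩
  filter_upwards [hc, hI, hII, eventually_gt_atTop (0 : ℝ),
    eventually_ge_atTop (2 * (b + 1 / b) * a / (s * b))] with M h1 h2 h3 hM h5 y hy hF hS
  have e10 : y 14 * (b * y 12 + y 10) = a + y 13 := hy.eq 10
  have hQ : c1 * M ≤ y 13 := pinA_Q hb hl hs (hy.pos 12) (hy.pos 10) e10 hF hS h5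
  have hq := h1 y hy hQ
  have hsig := sigA hb ha hM hy hq
  rcases le_or_gt (y 7) (ε * y 6) with h | h
  · obtain ⟨g1, g2⟩ := h2 y hy hQ hq h
    rcases le_or_gt (1 / (b + 1)) (y 7) with h6 | h6
    · exact Or.inr (Or.inl ⟨h6, g1⟩)
    · left
      refine ⟨(min_le_left _ _).trans hsig, g2 ?_⟩
      have : 1 / (b + 1) ≤ 1 := by
        rw [div_le_one (by positivity)]
        linarith
      linarith
  · obtain ⟨g1, g2⟩ := h3 y hy hQ hq h.le
    right; right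
    refine ⟨(min_le_right _ _).trans g2, le_trans ?_ g1⟩
    have h7 : 1 / (6 * b ^ 2 + 4) ≤ 1 / 2 := by
      apply div_le_div_of_nonneg_left (by norm_num) (by norm_num)
      nlinarith [sq_nonneg b]
    have h8 : 0 < y 13 + (b + 1 / b) * y 12 := by
      have := hy.pos 13
      have := hy.pos 12
      positivity
    apply mul_le_mul_of_nonneg_right _ h8.le
    linarith

/-- Positive solutions of `x_n (b x_{n-2} + x_{n-4}) = a + x_{n-1}` are bounded. -/
theorem boundedA {a b : ℝ} (ha : 0 < a) (hb : 0 < b) {x : ℕ → ℝ} (hx : ∀ n, 0 < x n)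
    (heq : ∀ n, x (n + 4) * (b * x (n + 2) + x n) = a + x (n + 3)) : ∃ B, ∀ n, x n ≤ B := by
  have hl : 0 < b + 1 / b := by positivity
  refine chain (F := fun n => x n + (b + 1 / b) * x (n - 1)) (S := fun n => x (n + 1))
    (lam := b + 1 / b) (del := 1 / (6 * b ^ 2 + 4)) (s0 := 1 / (b + 1)) (L := 14)
    (by positivity) (by positivity) ?_ ?_ ?_
  · intro n M h
    have h1 := h n le_rfl
    have h2 := h (n - 1) (Nat.sub_le _ _)
    have h3 : (b + 1 / b) * x (n - 1) ≤ (b + 1 / b) * M := mul_le_mul_of_nonneg_left h2 hl.le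
    show x n + (b + 1 / b) * x (n - 1) ≤ (1 + (b + 1 / b)) * M
    linarith [add_mul 1 (b + 1 / b) M]
  · intro n hn _ h
    obtain ⟨m, rfl⟩ : ∃ m, n = m + 3 := ⟨n - 3, by omega⟩
    refine ⟨?_, ?_⟩
    · have : 0 < (b + 1 / b) * x (m + 3 - 1) := mul_pos hl (hx _)
      show x (m + 3) ≤ x (m + 3) + (b + 1 / b) * x (m + 3 - 1)
      linarith
    · show 1 / (b + 1) ≤ x (m + 4)
      have h1 := heq m
      have h2 := h (m + 2) (by omega)
      have h3 := h m (by omega)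
      have h4 : x (m + 4) * (b * x (m + 2) + x m) ≤ x (m + 4) * ((b + 1) * x (m + 3)) :=
        mul_le_mul_of_nonneg_left (comb_le hb h2 h3) (hx _).le
      rw [div_le_iff₀ (by positivity)]
      have h5 : 1 * x (m + 3) ≤ x (m + 4) * (b + 1) * x (m + 3) := by
        linarith [mul_assoc (x (m + 4)) (b + 1) (x (m + 3))]
      exact le_of_mul_le_mul_right h5 (hx _)
  · intro s hs
    obtain ⟨σ', hσ', hev⟩ := stepA ha hb hs
    obtain ⟨K, hK⟩ := eventually_atTop.mp hev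
    refine ⟨K, σ', hσ', ?_⟩
    intro n M hn hM hxM hF hS
    obtain ⟨m, rfl⟩ : ∃ m, n = m + 13 := ⟨n - 13, by omega⟩
    have hw : WinA a b M (fun i => x (m + i)) := by
      refine ⟨fun i => hx _, fun i hi => hxM _ (by omega), fun i => ?_⟩
      have := heq (m + i)
      simpa [Nat.add_assoc] using this
    have h1 := hK M hM (fun i => x (m + i)) hw hF hS
    rcases h1 with ⟨h1, h2⟩ | ⟨h1, h2⟩ | ⟨h1, h2⟩
    · exact ⟨m + 6, by omega, Or.inl ⟨h1, h2⟩⟩
    · exact ⟨m + 6, by omega, Or.inr ⟨h1, h2⟩⟩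
    · exact ⟨m + 7, by omega, Or.inl ⟨h1, h2⟩⟩

end Pool.Agent.RatExo
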