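import Pool.Agent.Lib_helper9.Rat.B3

/-!
The equation `x_n (b x_{n-1} + x_{n-4}) = a + x_{n-2}`: size of the terms of a window which ends at a
near record.
-/

set_option autoImplicit false

namespace Pool.Agent.RatExo

open Filter

theorem pinB_Q {a l σ b M P Q S d2 : ℝ} (hb : 0 < b) (hl : 0 < l) (hσ : 0 < σ)
    (hP : 0 < P) (hd2 : 0 < d2)
    (e12 : S * (b * d2 + P) = a + Q) (hF : M ≤ Q + l * P) (hS : σ ≤ S)
    (hM : 2 * l * a / σ ≤ M) : σ / (2 * (σ + l)) * M ≤ Q := by
  have hS0 : 0 < S := lt_of_lt_of_le hσ hS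
  have h1 : σ * P ≤ a + Q := by
    have h3 : σ * P ≤ S * P := mul_le_mul_of_nonneg_right hS hP.le
    have h4 : S * P ≤ a + Q := drop_left hS0 (show 0 < b * d2 by positivity) e12.le
    linarith
  have h2 : 2 * l * a ≤ M * σ := by rwa [div_le_iff₀ (by positivity)] at hM
  rw [div_mul_eq_mul_div, div_le_iff₀ (by positivity)]
  have h3 : σ * M ≤ σ * (Q + l * P) := mul_le_mul_of_nonneg_left hF (by positivity)
  have h4 : l * (σ * P) ≤ l * (a + Q) := mul_le_mul_of_nonneg_left h1 hl.le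
  nlinarith

/-- Case (i): the term `P` is of the order of `M`. -/
theorem pinB_i {a b A F1 c2 M P q g f r e : ℝ} (ha : 0 < a) (hb : 0 < b) (hA : 0 < A)
    (hc2 : 0 < c2) (hM : 0 < M) (hq : 0 < q) (hg : 0 < g) (hr : 0 < r) (he : 0 < e)
    (hF1 : 0 < F1)
    (e7 : e * (b * f + q) = a + r) (e8 : P * (b * e + g) = a + f) (hf : a + f ≤ A)
    (hf1 : f ≤ F1)
    (hP : c2 * M ≤ P) (hM1 : 2 * A * F1 / (a * c2) ≤ M) :
    a * b * c2 / (2 * A) * M ≤ q := by
  have hcM : 0 < c2 * M := by positivity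
  have k1 : c2 * M * (b * e + g) ≤ A := by
    have : c2 * M * (b * e + g) ≤ P * (b * e + g) :=
      mul_le_mul_of_nonneg_right hP (by positivity)
    linarith
  have k2 : c2 * M * (b * e) ≤ A := drop_right hcM hg k1
  have k3 : a ≤ e * (b * F1 + q) := by
    have : e * (b * f + q) ≤ e * (b * F1 + q) := by
      apply mul_le_mul_of_nonneg_left _ he.le
      linarith [mul_le_mul_of_nonneg_left hf1 hb.le]
    linarith
  have k4 : a * (c2 * M * b) ≤ A * (b * F1 + q) :=
    elim_w (by positivity) (by positivity) (by linarith [mul_assoc (c2 * M) b e]) k3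
  have k5 : 2 * A * F1 ≤ M * (a * c2) := by rwa [div_le_iff₀ (by positivity)] at hM1
  rw [div_mul_eq_mul_div, div_le_iff₀ (by positivity)]
  have k6 : 2 * A * F1 * b ≤ M * (a * c2) * b := mul_le_mul_of_nonneg_right k5 hb.le
  have k7 : A * (b * F1 + q) = A * F1 * b + A * q := by ring
  linarith

/-- Case (ii), `q < 1`: impossible. -/
theorem pinB_ii_small {a b c1 M q g f r e P d Q : ℝ} (ha : 0 < a) (hb : 0 < b)
    (hc1 : 0 < c1) (hM : 0 < M)
    (hq : 0 < q) (hg : 0 < g) (hf : 0 < f)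
    (hr : 0 < r) (he : 0 < e) (hd : 0 < d) (hP : 0 < P)
    (lr : r ≤ M) (lP : P ≤ M)
    (e7 : e * (b * f + q) = a + r) (e8 : P * (b * e + g) = a + f)
    (e9 : d * (b * P + r) = a + e) (e10 : Q * (b * d + f) = a + P)
    (hf1 : f ≤ 1) (hQ : c1 * M ≤ Q) (hq1 : q < 1)
    {P0 A2 c4 : ℝ} (hP0 : P0 = (a + 1) * (b + 1) / (a * b)) (hA2 : A2 = a + P0)
    (hc4 : c4 = a * b * c1 / (2 * A2)) (hM1 : 2 * A2 * P0 / (a * c1) ≤ M)
    (hM2 : A2 * (b + 1) ^ 2 / (c1 * b * c4) < M) : False := by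
  have P0pos : 0 < P0 := by rw [hP0]; positivity
  have A2pos : 0 < A2 := by rw [hA2]; positivity
  have c4pos : 0 < c4 := by rw [hc4]; positivity
  have hcM : 0 < c1 * M := by positivity
  have hQ0 : 0 < Q := lt_of_lt_of_le hcM hQ
  have k1 : a + r ≤ e * (b + 1) := by
    have : e * (b * f + q) ≤ e * (b + 1) := by
      apply mul_le_mul_of_nonneg_left _ he.le
      have := mul_le_mul_of_nonneg_left hf1 hb.le
      linarith
    linarith
  have k2 : P * (b * e) ≤ a + 1 := by
    have := drop_right hP hg e8.le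
    linarith
  have k3 : P ≤ P0 := by
    rw [hP0, le_div_iff₀ (by positivity)]
    have h1 : P * b * a ≤ P * b * (e * (b + 1)) := by
      apply mul_le_mul_of_nonneg_left _ (by positivity)
      linarith
    have h2 : P * (b * e) * (b + 1) ≤ (a + 1) * (b + 1) :=
      mul_le_mul_of_nonneg_right k2 (by positivity)
    have h3 : P * b * (e * (b + 1)) = P * (b * e) * (b + 1) := by ring
    linarith [mul_assoc P b a, mul_comm b a]
  have k4 : c1 * M * (b * d) ≤ A2 := by
    have h1 : Q * (b * d) ≤ a + P := drop_right hQ0 hf e10.le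
    have h2 : c1 * M * (b * d) ≤ Q * (b * d) := mul_le_mul_of_nonneg_right hQ (by positivity)
    rw [hA2]; linarith
  have k5 : c4 * M ≤ r := by
    have h1 : a ≤ d * (b * P0 + r) := by
      have : d * (b * P + r) ≤ d * (b * P0 + r) := by
        apply mul_le_mul_of_nonneg_left _ hd.le
        linarith [mul_le_mul_of_nonneg_left k3 hb.le]
      linarith
    have h2 : a * (c1 * M * b) ≤ A2 * (b * P0 + r) :=
      elim_w (by positivity) (by positivity) (by linarith [mul_assoc (c1 * M) b d]) h1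
    have h3 : 2 * A2 * P0 ≤ M * (a * c1) := by rwa [div_le_iff₀ (by positivity)] at hM1
    have h4 : 2 * A2 * P0 * b ≤ M * (a * c1) * b := mul_le_mul_of_nonneg_right h3 hb.le
    rw [hc4, div_mul_eq_mul_div, div_le_iff₀ (by positivity)]
    have h5 : A2 * (b * P0 + r) = A2 * P0 * b + A2 * r := by ring
    linarith
  have k6 : c4 ≤ d * (b + 1) ^ 2 := by
    have h1 : d * (b * P + r) ≤ d * ((b + 1) * M) :=
      mul_le_mul_of_nonneg_left (comb_le hb lP lr) hd.le
    have h2 : c4 * M ≤ e * (b + 1) := by linarith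
    have h3 : e * (b + 1) ≤ d * ((b + 1) * M) * (b + 1) := by
      apply mul_le_mul_of_nonneg_right _ (by positivity)
      linarith
    have h4 : c4 * M ≤ d * (b + 1) ^ 2 * M := by
      have : d * ((b + 1) * M) * (b + 1) = d * (b + 1) ^ 2 * M := by ring
      linarith
    exact le_of_mul_le_mul_right h4 hM
  rw [div_lt_iff₀ (by positivity)] at hM2
  have k7 : c4 * (c1 * M * b) ≤ d * (b + 1) ^ 2 * (c1 * M * b) :=
    mul_le_mul_of_nonneg_right k6 (by positivity)
  have k8 : c1 * M * (b * d) * (b + 1) ^ 2 ≤ A2 * (b + 1) ^ 2 :=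
    mul_le_mul_of_nonneg_right k4 (by positivity)
  have k9 : d * (b + 1) ^ 2 * (c1 * M * b) = c1 * M * (b * d) * (b + 1) ^ 2 := by ring
  have k10 : M * (c1 * b * c4) = c4 * (c1 * M * b) := by ring
  linarith

/-- Case (ii), `q ≥ 1`: then `r ≥ 1`. -/
theorem pinB_ii_r {a b δ H0 y1 y2 y3 k0 p h q g f r : ℝ} (ha : 0 < a) (hb : 0 < b)
    (hδ : 0 < δ)
    (hy1 : 0 < y1) (hy2 : 0 < y2) (hy3 : 0 < y3) (hp : 0 < p) (hh : 0 < h)
    (hq : 0 < q) (hg : 0 < g)
    (e1 : p * (b * k0 + y1) = a + y3) (e2 : h * (b * p + y2) = a + k0)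
    (e3 : q * (b * h + y3) = a + p) (e6 : f * (b * r + h) = a + g)
    (hf : 0 < f) (hfδ : f ≤ δ) (hq1 : 1 ≤ q)
    (hH0 : H0 = 1 + (a * b + 2 * a + 1) / b ^ 2 + (a + 1) / b) (hδ2 : δ * (b + H0) ≤ a) :
    1 ≤ r := by
  by_contra hcon
  push Not at hcon
  have h1 : H0 ≤ h := by
    have h2 : f * (b * r + h) ≤ δ * (b + h) := by
      rcases le_or_gt r 0 with h0 | h0
      · have : b * r ≤ 0 := mul_nonpos_of_nonneg_of_nonpos hb.le h0
        have h3 : f * (b * r + h) ≤ f * (b + h) := by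
          apply mul_le_mul_of_nonneg_left _ hf.le
          linarith
        have h4 : f * (b + h) ≤ δ * (b + h) := mul_le_mul_of_nonneg_right hfδ (by positivity)
        linarith
      · have h3 : b * r ≤ b * 1 := mul_le_mul_of_nonneg_left hcon.le hb.le
        apply mul_le_mul hfδ _ (by positivity) hδ.le
        linarith
    have h3 : δ * (b + H0) ≤ δ * (b + h) := by linarith
    have h4 : b + H0 ≤ b + h := le_of_mul_le_mul_left h3 hδ
    linarith
  have p1 : 0 < (a * b + 2 * a + 1) / b ^ 2 := by positivity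
  have p2 : 0 < (a + 1) / b := by positivity
  have h2 : 1 ≤ p := by
    have h3 : q * (b * h) ≤ a + p := drop_right hq hy3 e3.le
    have h4 : 1 * (b * h) ≤ q * (b * h) := mul_le_mul_of_nonneg_right hq1 (by positivity)
    have h5 : (a + 1) / b ≤ h := by linarith
    rw [div_le_iff₀ hb] at h5
    linarith [mul_comm h b]
  have h3 : y3 ≤ a + p := by
    have h4 : q * y3 ≤ a + p := drop_left hq (show 0 < b * h by positivity) e3.le
    have h5 : 1 * y3 ≤ q * y3 := mul_le_mul_of_nonneg_right hq1 hy3.le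
    linarith
  have h4 : p * (b * k0) ≤ 2 * a + p := by
    have := drop_right hp hy1 e1.le
    linarith
  have h5 : h * (b * p) ≤ a + k0 := drop_right hh hy2 e2.le
  have h6 : h * (b * p) * (b * p) ≤ (a + k0) * (b * p) :=
    mul_le_mul_of_nonneg_right h5 (by positivity)
  have h7 : (a + k0) * (b * p) = a * b * p + p * (b * k0) := by ring
  have h8 : 2 * a * 1 ≤ 2 * a * p := mul_le_mul_of_nonneg_left h2 (by positivity)
  have h9 : h * (b * p) * (b * p) ≤ (a * b + 2 * a + 1) * p := by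
    have : (a * b + 2 * a + 1) * p = a * b * p + 2 * a * p + p := by ring
    linarith
  have h10 : p * (h * b ^ 2 * p) ≤ p * (a * b + 2 * a + 1) := by
    have : p * (h * b ^ 2 * p) = h * (b * p) * (b * p) := by ring
    linarith [mul_comm p (a * b + 2 * a + 1)]
  have h11 : h * b ^ 2 * p ≤ a * b + 2 * a + 1 := le_of_mul_le_mul_left h10 hp
  have h12 : h * b ^ 2 * 1 ≤ h * b ^ 2 * p := mul_le_mul_of_nonneg_left h2 (by positivity)
  have h13 : h ≤ (a * b + 2 * a + 1) / b ^ 2 := by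
    rw [le_div_iff₀ (by positivity)]
    linarith
  linarith

/-- Case (ii), `q ≥ 1`. -/
theorem pinB_ii_big {a b c1 M y3 p h q g f r e P d Q : ℝ} (ha : 0 < a) (hb : 0 < b)
    (hc1 : 0 < c1) (hM : 0 < M)
    (hy3 : 0 < y3) (hp : 0 < p) (hh : 0 < h) (hq : 0 < q) (hg : 0 < g) (hf : 0 < f)
    (he : 0 < e) (hd : 0 < d) (hP : 0 < P)
    (lq : q ≤ M) (lr : r ≤ M) (lP : P ≤ M)
    (e3 : q * (b * h + y3) = a + p) (e5 : r * (b * g + p) = a + q)
    (e6 : f * (b * r + h) = a + g)
    (e7 : e * (b * f + q) = a + r) (e8 : P * (b * e + g) = a + f)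
    (e9 : d * (b * P + r) = a + e) (e10 : Q * (b * d + f) = a + P)
    (hf1 : f ≤ 1) (hr1 : 1 ≤ r) (hQ : c1 * M ≤ Q) (hq1 : 1 ≤ q)
    {H1 A5 c7 c8 A7 : ℝ} (hH1 : H1 = (2 * a + 1) / b) (hA5 : A5 = (a + 1) * (b + 1) / b)
    (hc7 : c7 = c1 * a / (2 * (b + H1) * A5)) (hc8 : c8 = c1 / (2 * (b + H1)))
    (hA7 : A7 = a + A5 / c8) :
    c7 * M ≤ q ∨ c8 * c1 * b / (A7 * (b + 1) ^ 2) * M ≤ q := by
  have hr : 0 < r := by linarith
  have H1pos : 0 < H1 := by rw [hH1]; positivity
  have A5pos : 0 < A5 := by rw [hA5]; positivity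
  have c8pos : 0 < c8 := by rw [hc8]; positivity
  have A7pos : 0 < A7 := by rw [hA7]; positivity
  have hcM : 0 < c1 * M := by positivity
  have hQ0 : 0 < Q := lt_of_lt_of_le hcM hQ
  have aq : a ≤ a * q := by
    have := mul_le_mul_of_nonneg_left hq1 ha.le
    linarith
  have k1 : p ≤ (a + 1) * q := by
    have h1 : 1 * p ≤ r * p := mul_le_mul_of_nonneg_right hr1 hp.le
    have h2 : r * p ≤ a + q := drop_left hr (show 0 < b * g by positivity) e5.le
    linarith [add_mul a 1 q]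
  have k2 : h ≤ H1 := by
    rw [hH1, le_div_iff₀ hb]
    have h1 : q * (b * h) ≤ a + p := drop_right hq hy3 e3.le
    have h2 : q * (h * b) ≤ q * (2 * a + 1) := by
      have e1 : q * (h * b) = q * (b * h) := by ring
      have e2 : q * (2 * a + 1) = a * q + (a + 1) * q := by ring
      linarith
    exact le_of_mul_le_mul_left h2 hq
  have k3 : a + r ≤ e * ((b + 1) * q) := by
    have : e * (b * f + q) ≤ e * ((b + 1) * q) := by
      apply mul_le_mul_of_nonneg_left _ he.le
      have h1 := mul_le_mul_of_nonneg_left hf1 hb.le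
      have h2 := mul_le_mul_of_nonneg_left hq1 hb.le
      linarith [add_mul b 1 q]
    linarith
  have k4 : P * (b * e) ≤ a + 1 := by
    have := drop_right hP hg e8.le
    linarith
  have k5 : P * (a + r) ≤ A5 * q := by
    have h1 : P * b * (a + r) ≤ P * b * (e * ((b + 1) * q)) :=
      mul_le_mul_of_nonneg_left k3 (by positivity)
    have h2 : P * (b * e) * ((b + 1) * q) ≤ (a + 1) * ((b + 1) * q) :=
      mul_le_mul_of_nonneg_right k4 (by positivity)
    have h3 : b * (P * (a + r)) ≤ b * (A5 * q) := by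
      have e1 : b * (P * (a + r)) = P * b * (a + r) := by ring
      have e2 : P * b * (e * ((b + 1) * q)) = P * (b * e) * ((b + 1) * q) := by ring
      have e3 : b * (A5 * q) = (a + 1) * ((b + 1) * q) := by rw [hA5]; field_simp
      linarith
    exact le_of_mul_le_mul_left h3 hb
  have k6 : P * r ≤ A5 * q := by
    have : 0 < P * a := by positivity
    linarith [mul_add P a r]
  have k7 : a * Q ≤ (b + H1) * (a * r + A5 * q) := by
    have h1 : Q * f ≤ a + P := drop_left hQ0 (show 0 < b * d by positivity) e10.le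
    have h2 : a ≤ f * (b * r + h) := by linarith
    have h3 : a * Q ≤ (a + P) * (b * r + h) :=
      elim_w hQ0.le (by positivity) h1 h2
    have h4 : b * r + h ≤ (b + H1) * r := by
      have : H1 * 1 ≤ H1 * r := mul_le_mul_of_nonneg_left hr1 H1pos.le
      linarith [add_mul b H1 r]
    have h5 : (a + P) * (b * r + h) ≤ (a + P) * ((b + H1) * r) :=
      mul_le_mul_of_nonneg_left h4 (by positivity)
    have h6 : (b + H1) * (P * r) ≤ (b + H1) * (A5 * q) :=
      mul_le_mul_of_nonneg_left k6 (by positivity)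
    have e1 : (a + P) * ((b + H1) * r) = (b + H1) * (a * r) + (b + H1) * (P * r) := by ring
    have e2 : (b + H1) * (a * r + A5 * q) = (b + H1) * (a * r) + (b + H1) * (A5 * q) := by ring
    linarith
  by_cases hcase : c7 * M ≤ q
  · exact Or.inl hcase
  right
  push Not at hcase
  have k8 : c8 * M ≤ r := by
    have h1 : (b + H1) * (A5 * q) ≤ (b + H1) * (A5 * (c7 * M)) := by
      apply mul_le_mul_of_nonneg_left _ (by positivity)
      exact mul_le_mul_of_nonneg_left hcase.le A5pos.le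
    have h2 : (b + H1) * (A5 * (c7 * M)) = c1 * a * M / 2 := by
      rw [hc7]; field_simp
    have h3 : a * (c1 * M) ≤ a * Q := mul_le_mul_of_nonneg_left hQ ha.le
    have h4 : c1 * a * M / 2 ≤ (b + H1) * (a * r) := by
      have e1 : a * (c1 * M) = c1 * a * M := by ring
      linarith [mul_add (b + H1) (a * r) (A5 * q)]
    rw [hc8, div_mul_eq_mul_div, div_le_iff₀ (by positivity)]
    have h5 : a * (c1 * M) ≤ a * (r * (2 * (b + H1))) := by
      have e1 : a * (c1 * M) = c1 * a * M := by ring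
      have e2 : a * (r * (2 * (b + H1))) = 2 * ((b + H1) * (a * r)) := by ring
      linarith
    exact le_of_mul_le_mul_left h5 ha
  have k9 : P ≤ A5 / c8 := by
    rw [le_div_iff₀ c8pos]
    have h1 : P * (c8 * M) ≤ P * r := mul_le_mul_of_nonneg_left k8 hP.le
    have h2 : A5 * q ≤ A5 * M := mul_le_mul_of_nonneg_left lq A5pos.le
    have h3 : P * c8 * M ≤ A5 * M := by linarith [mul_assoc P c8 M]
    exact le_of_mul_le_mul_right h3 hM
  have k10 : c1 * M * (b * d) ≤ A7 := by
    have h1 : Q * (b * d) ≤ a + P := drop_right hQ0 hf e10.le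
    have h2 : c1 * M * (b * d) ≤ Q * (b * d) := mul_le_mul_of_nonneg_right hQ (by positivity)
    rw [hA7]; linarith
  have k11 : c8 ≤ d * ((b + 1) ^ 2 * q) := by
    have h1 : d * (b * P + r) ≤ d * ((b + 1) * M) :=
      mul_le_mul_of_nonneg_left (comb_le hb lP lr) hd.le
    have h2 : c8 * M ≤ e * ((b + 1) * q) := by linarith
    have h3 : e * ((b + 1) * q) ≤ d * ((b + 1) * M) * ((b + 1) * q) := by
      apply mul_le_mul_of_nonneg_right _ (by positivity)
      linarith
    have h4 : c8 * M ≤ d * ((b + 1) ^ 2 * q) * M := by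
      have : d * ((b + 1) * M) * ((b + 1) * q) = d * ((b + 1) ^ 2 * q) * M := by ring
      linarith
    exact le_of_mul_le_mul_right h4 hM
  rw [div_mul_eq_mul_div, div_le_iff₀ (by positivity)]
  have h1 : c8 * (c1 * M * b) ≤ A7 * ((b + 1) ^ 2 * q) :=
    elim_w (by positivity) (by positivity) (by linarith [mul_assoc (c1 * M) b d]) k11
  have e1 : q * (A7 * (b + 1) ^ 2) = A7 * ((b + 1) ^ 2 * q) := by ring
  have e2 : c8 * c1 * b * M = c8 * (c1 * M * b) := by ring
  linarith

/-- If `y 14` is of the order of `M` then so is `y 7`. -/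
theorem pinB {a b c1 : ℝ} (ha : 0 < a) (hb : 0 < b) (hc1 : 0 < c1) :
    ∃ c > 0, ∀ᶠ M : ℝ in atTop, ∀ y, WinB a b M y → c1 * M ≤ y 14 → c * M ≤ y 7 := by
  -- constants
  set F1 : ℝ := 2 / c1 with hF1
  have F1pos : 0 < F1 := by positivity
  set A : ℝ := a + F1 with hA
  have Apos : 0 < A := by positivity
  set H0 : ℝ := 1 + (a * b + 2 * a + 1) / b ^ 2 + (a + 1) / b with hH0
  have H0pos : 0 < H0 := by positivity
  set δ : ℝ := min 1 (a / (b + H0)) with hδ
  have δpos : 0 < δ := lt_min one_pos (by positivity)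
  have δ1 : δ ≤ 1 := min_le_left _ _
  have δ2 : δ * (b + H0) ≤ a := by
    have : δ ≤ a / (b + H0) := min_le_right _ _
    rwa [le_div_iff₀ (by positivity)] at this
  set c2 : ℝ := c1 * δ / 2 with hc2
  have c2pos : 0 < c2 := by positivity
  set c3 : ℝ := a * b * c2 / (2 * A) with hc3
  have c3pos : 0 < c3 := by positivity
  set P0 : ℝ := (a + 1) * (b + 1) / (a * b) with hP0
  have P0pos : 0 < P0 := by positivity
  set A2 : ℝ := a + P0 with hA2
  have A2pos : 0 < A2 := by positivity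
  set c4 : ℝ := a * b * c1 / (2 * A2) with hc4
  have c4pos : 0 < c4 := by positivity
  set H1 : ℝ := (2 * a + 1) / b with hH1
  have H1pos : 0 < H1 := by positivity
  set A5 : ℝ := (a + 1) * (b + 1) / b with hA5
  have A5pos : 0 < A5 := by positivity
  set c7 : ℝ := c1 * a / (2 * (b + H1) * A5) with hc7
  have c7pos : 0 < c7 := by positivity
  set c8 : ℝ := c1 / (2 * (b + H1)) with hc8
  have c8pos : 0 < c8 := by positivity
  set A7 : ℝ := a + A5 / c8 with hA7
  have A7pos : 0 < A7 := by positivity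
  set c9 : ℝ := c8 * c1 * b / (A7 * (b + 1) ^ 2) with hc9
  have c9pos : 0 < c9 := by positivity
  refine ⟨min c3 (min c7 c9), lt_min c3pos (lt_min c7pos c9pos), ?_⟩
  filter_upwards [eventually_ge_atTop (1 : ℝ), eventually_ge_atTop a,
    eventually_ge_atTop (a / c2), eventually_ge_atTop (2 * A * F1 / (a * c2)),
    eventually_ge_atTop (2 * A2 * P0 / (a * c1)),
    eventually_gt_atTop (A2 * (b + 1) ^ 2 / (c1 * b * c4))] with
    M hM1 hMa hMc2 hMA hM3 hM4 y h hQ
  have hM : 0 < M := by linarith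
  have e1 : y 5 * (b * y 4 + y 1) = a + y 3 := h.eq 1
  have e2 : y 6 * (b * y 5 + y 2) = a + y 4 := h.eq 2
  have e3 : y 7 * (b * y 6 + y 3) = a + y 5 := h.eq 3
  have e5 : y 9 * (b * y 8 + y 5) = a + y 7 := h.eq 5
  have e6 : y 10 * (b * y 9 + y 6) = a + y 8 := h.eq 6
  have e7 : y 11 * (b * y 10 + y 7) = a + y 9 := h.eq 7
  have e8 : y 12 * (b * y 11 + y 8) = a + y 10 := h.eq 8
  have e9 : y 13 * (b * y 12 + y 9) = a + y 11 := h.eq 9
  have e10 : y 14 * (b * y 13 + y 10) = a + y 12 := h.eq 10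
  have hp := h.pos
  have l7 := h.le 7 (by norm_num)
  have l9 := h.le 9 (by norm_num)
  have l12 := h.le 12 (by norm_num)
  have hcM : 0 < c1 * M := by positivity
  have hbd : 0 < b * y 13 := mul_pos hb (hp 13)
  -- `b d + f` is bounded
  have k1 : c1 * M * (b * y 13 + y 10) ≤ a + y 12 := by
    have : c1 * M * (b * y 13 + y 10) ≤ y 14 * (b * y 13 + y 10) :=
      mul_le_mul_of_nonneg_right hQ (by have := hp 10; positivity)
    linarith
  have k2 : y 10 ≤ F1 := by
    have h1 : c1 * M * y 10 ≤ a + y 12 := drop_left hcM hbd k1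
    rw [hF1, le_div_iff₀ hc1]
    have h2 : y 10 * c1 * M ≤ 2 * M := by
      have e : y 10 * c1 * M = c1 * M * y 10 := by ring
      linarith
    exact le_of_mul_le_mul_right h2 hM
  rcases le_or_gt (c2 * M) (y 12) with hP | hP
  · have := pinB_i ha hb Apos c2pos hM (hp 7) (hp 8) (hp 9) (hp 11) F1pos e7 e8
      (by rw [hA]; linarith) k2 hP hMA
    exact (mul_le_mul_of_nonneg_right (min_le_left _ _) hM.le).trans this
  · -- `b d + f ≤ δ`
    have k3 : a ≤ M * c2 := by rwa [div_le_iff₀ c2pos] at hMc2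
    have k4 : c1 * M * (b * y 13 + y 10) ≤ c1 * M * δ := by
      have e : c1 * M * δ = 2 * (c2 * M) := by rw [hc2]; ring
      linarith
    have k5 : b * y 13 + y 10 ≤ δ := le_of_mul_le_mul_left k4 hcM
    have k6 : y 10 ≤ δ := by linarith
    have k7 : y 10 ≤ 1 := by linarith
    rcases lt_or_ge (y 7) 1 with hq1 | hq1
    · exact (pinB_ii_small ha hb hc1 hM (hp 7) (hp 8) (hp 10) (hp 9) (hp 11) (hp 13) (hp 12)
        l9 l12 e7 e8 e9 e10 k7 hQ hq1 hP0 hA2 hc4 hM3 hM4).elim
    · have hr1 := pinB_ii_r ha hb δpos (hp 1) (hp 2) (hp 3) (hp 5) (hp 6) (hp 7) (hp 8) e1 e2 e3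
        e6 (hp 10) k6 hq1 hH0 δ2
      rcases pinB_ii_big ha hb hc1 hM (hp 3) (hp 5) (hp 6) (hp 7) (hp 8) (hp 10) (hp 11) (hp 13)
        (hp 12) l7 l9 l12 e3 e5 e6 e7 e8 e9 e10 k7 hr1 hQ hq1 hH1 hA5 hc7 hc8 hA7 with h1 | h1
      · refine (mul_le_mul_of_nonneg_right ?_ hM.le).trans h1
        exact (min_le_right _ _).trans (min_le_left _ _)
      · refine (mul_le_mul_of_nonneg_right ?_ hM.le).trans h1
        exact (min_le_right _ _).trans (min_le_right _ _)

end Pool.Agent.RatExo
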