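import Pool.Agent.Lib_helper9.Rat.A1

/-!
The equation `x_n (b x_{n-1} + x_{n-4}) = a + x_{n-2}`: the expansion of the functional and the final
comparison.
-/

set_option autoImplicit false

namespace Pool.Agent.RatExo

open Filter

/-- A window of a solution of `x_n (b x_{n-1} + x_{n-4}) = a + x_{n-2}`, all terms at most `M`. -/
structure WinB (a b M : ℝ) (y : ℕ → ℝ) : Prop where
  pos : ∀ i, 0 < y i
  le : ∀ i, i ≤ 14 → y i ≤ M
  eq : ∀ i, y (i + 4) * (b * y (i + 3) + y i) = a + y (i + 2)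

/-- The exact expansion of the functional. -/
theorem expandB {a b k0 h q g r f e P d Q : ℝ}
    (e4 : g * (b * q + k0) = a + h)
    (e6 : f * (b * r + h) = a + g) (e7 : e * (b * f + q) = a + r)
    (e8 : P * (b * e + g) = a + f) (e10 : Q * (b * d + f) = a + P) :
    a * b * Q + a * (b ^ 2 + 1) * P = a * b ^ 2 * r + b * (q * (a + f))
      + b ^ 2 * f * (P * (b * e)) - P * h + P * g * k0 - b ^ 3 * (Q * (r * d)) - b * (Q * g)
      + b * (Q * f * h) := by
  linear_combination b * b * r * e10 - b * Q * e6 - P * b ^ 2 * e7 - P * e4 + b * q * e8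

theorem mainB {a b F1 K0 H G B σ z k0 p h q g r f e P d Q : ℝ} (ha : 0 < a) (hb : 0 < b)
    (hσ : 0 < σ) (hz0 : 0 < z) (hk0 : 0 < k0)
    (hh : 0 < h) (hg : 0 < g) (hf : 0 < f) (he : 0 < e) (hP : 0 < P)
    (hQ : 0 < Q) (hF1 : 0 < F1)
    (e4 : g * (b * q + k0) = a + h) (e5 : r * (b * g + p) = a + q)
    (e6 : f * (b * r + h) = a + g) (e7 : e * (b * f + q) = a + r)
    (e8 : P * (b * e + g) = a + f) (e10 : Q * (b * d + f) = a + P)
    (hz : z * r = q) (hr : σ ≤ r) (bk : k0 ≤ K0) (bh : h ≤ H) (bg : g ≤ G) (bf : f ≤ F1)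
    (bQfh : Q * f * h ≤ B) :
    a * b ^ 2 * z - a * b ^ 2 * r + b ^ 3 * (Q * (r * d))
      - (a * (b ^ 2 + 1) * (b * G) + (a + H) / (b * σ) + b ^ 2 * F1 * (a + F1)
        + (a + F1) * K0 + b * B)
      ≤ a * b * q + a * (b ^ 2 + 1) * p - (a * b * Q + a * (b ^ 2 + 1) * P) := by
  have hr0 : 0 < r := lt_of_lt_of_le hσ hr
  have h1 := expandB e4 e6 e7 e8 e10
  -- the term `b q f`
  have h2 : b * (q * f) ≤ a * z + (a + H) / (b * σ) := by
    have h3 : f * (b * r) ≤ a + g := drop_right hf hh e6.le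
    have h4 : b * (q * f) = z * (f * (b * r)) := by rw [← hz]; ring
    have h5 : z * (f * (b * r)) ≤ z * (a + g) := mul_le_mul_of_nonneg_left h3 hz0.le
    have h6 : z * g ≤ (a + H) / (b * σ) := by
      rw [le_div_iff₀ (by positivity)]
      have h7 : z * g * (b * σ) ≤ z * g * (b * r) := by
        apply mul_le_mul_of_nonneg_left _ (by positivity)
        exact mul_le_mul_of_nonneg_left hr hb.le
      have h8 : z * g * (b * r) = g * (b * q) := by rw [← hz]; ring
      have h9 : g * (b * q) ≤ a + h := drop_right hg hk0 e4.le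
      linarith
    linarith [mul_add z a g, mul_comm a z]
  have h3 : z - b * G ≤ p := by
    have h4 : r * z ≤ r * (b * g + p) := by rw [e5]; linarith [mul_comm r z]
    have h5 : z ≤ b * g + p := le_of_mul_le_mul_left h4 hr0
    have h6 : b * g ≤ b * G := mul_le_mul_of_nonneg_left bg hb.le
    linarith
  have h4 : a * (b ^ 2 + 1) * (z - b * G) ≤ a * (b ^ 2 + 1) * p :=
    mul_le_mul_of_nonneg_left h3 (by positivity)
  have h5 : P * (b * e) ≤ a + F1 := by
    have := drop_right hP hg e8.le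
    linarith
  have h6 : b ^ 2 * f * (P * (b * e)) ≤ b ^ 2 * F1 * (a + F1) := by
    apply mul_le_mul _ h5 (by positivity) (by positivity)
    exact mul_le_mul_of_nonneg_left bf (by positivity)
  have h7 : P * g * k0 ≤ (a + F1) * K0 := by
    have h8 : P * g ≤ a + F1 := by
      have := drop_left hP (show 0 < b * e by positivity) e8.le
      linarith
    exact mul_le_mul h8 bk hk0.le (by positivity)
  have h8 : b * (Q * f * h) ≤ b * B := mul_le_mul_of_nonneg_left bQfh hb.le
  have h9 : 0 < P * h := by positivity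
  have h10 : 0 < b * (Q * g) := by positivity
  have h11 : a * (b ^ 2 + 1) * (z - b * G) = a * b ^ 2 * z + a * z - a * (b ^ 2 + 1) * (b * G) := by
    ring
  have h12 : b * (q * (a + f)) = a * b * q + b * (q * f) := by ring
  linarith

/-- The lower bound for the quadratic correction. -/
theorem quadB {a b c1 J q e g f r P d Q : ℝ} (ha : 0 < a) (hb : 0 < b) (hc1 : 0 < c1)
    (hq : 0 < q) (hr : 0 < r) (he : 0 < e) (hg : 0 < g) (hP : 0 < P) (hd : 0 < d)

    (e7 : e * (b * f + q) = a + r) (e8 : P * (b * e + g) = a + f)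
    (e9 : d * (b * P + r) = a + e) (hQ : c1 * q ≤ Q) (hbf : b * f ≤ q) (haf : 2 * (a + f) ≤ J) :
    c1 * q * (a * r ^ 2) ≤ Q * (r * d) * (J * q + r ^ 2) := by
  have h1 : P * (b * e) ≤ a + f := drop_right hP hg e8.le
  have h2 : r ≤ e * (2 * q) := by
    have : e * (b * f + q) ≤ e * (2 * q) := by
      apply mul_le_mul_of_nonneg_left _ he.le
      linarith
    linarith
  have h3 : b * P * r ≤ J * q := by
    have h4 : b * P * r ≤ b * P * (e * (2 * q)) := mul_le_mul_of_nonneg_left h2 (by positivity)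
    have h5 : P * (b * e) * (2 * q) ≤ (a + f) * (2 * q) :=
      mul_le_mul_of_nonneg_right h1 (by positivity)
    have h6 : 2 * (a + f) * q ≤ J * q := mul_le_mul_of_nonneg_right haf hq.le
    have h7 : b * P * (e * (2 * q)) = P * (b * e) * (2 * q) := by ring
    linarith
  have h4 : a ≤ d * (b * P + r) := by linarith
  have h5 : a * r ^ 2 ≤ d * (b * P + r) * r ^ 2 := mul_le_mul_of_nonneg_right h4 (by positivity)
  have h6 : d * (b * P + r) * r ^ 2 = r * d * (b * P * r + r ^ 2) := by ring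
  have h7 : r * d * (b * P * r + r ^ 2) ≤ r * d * (J * q + r ^ 2) := by
    apply mul_le_mul_of_nonneg_left _ (by positivity)
    linarith
  have h8 : a * r ^ 2 ≤ r * d * (J * q + r ^ 2) := by linarith
  have hQ0 : 0 < Q := lt_of_lt_of_le (by positivity) hQ
  have h9 : c1 * q * (a * r ^ 2) ≤ Q * (a * r ^ 2) :=
    mul_le_mul_of_nonneg_right hQ (by positivity)
  have h10 : Q * (a * r ^ 2) ≤ Q * (r * d * (J * q + r ^ 2)) :=
    mul_le_mul_of_nonneg_left h8 hQ0.le
  linarith [mul_assoc Q (r * d) (J * q + r ^ 2)]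

/-- The final comparison: `X` is the quadratic term. -/
theorem finalB {a b c1 J C q r X : ℝ} (ha : 0 < a) (hb : 0 < b) (hc1 : 0 < c1) (hC : 0 < C)
    (hJ : 0 < J) (hq : 0 < q) (hr : 0 < r) (hX : 0 ≤ X)
    (hquad : c1 * q * (a * r ^ 2) ≤ X * (J * q + r ^ 2))
    (hr1 : r ≤ b * c1 / 4 * q) (hqC : 4 * C / (b ^ 3 * c1 * a) ≤ q)
    (Sb : ℝ) (hSb : Sb = 1 + 2 * J * (a * b ^ 2 + C) / (b ^ 3 * c1 * a))
    (hqS : Sb * (a * b ^ 2 * Sb + C) / (a * b ^ 2) ≤ q) :
    a * b ^ 2 * r + C ≤ a * b ^ 2 * (q / r) + b ^ 3 * X := by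
  have hSb1 : 1 ≤ Sb := by
    rw [hSb]; linarith [show 0 < 2 * J * (a * b ^ 2 + C) / (b ^ 3 * c1 * a) by positivity]
  have hz : 0 < a * b ^ 2 * (q / r) := by positivity
  rcases le_or_gt r Sb with h | h
  · have h1 : a * b ^ 2 * Sb + C ≤ a * b ^ 2 * (q / r) := by
      have h2 : q / Sb ≤ q / r := div_le_div_of_nonneg_left hq.le hr h
      have h3 : a * b ^ 2 * (q / Sb) ≤ a * b ^ 2 * (q / r) :=
        mul_le_mul_of_nonneg_left h2 (by positivity)
      have h4 : a * b ^ 2 * Sb + C ≤ a * b ^ 2 * (q / Sb) := by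
        have h5 : a * b ^ 2 * (q / Sb) = q * (a * b ^ 2) / Sb := by ring
        rw [h5, le_div_iff₀ (by positivity)]
        rw [div_le_iff₀ (by positivity)] at hqS
        linarith [mul_comm Sb (a * b ^ 2 * Sb + C)]
      linarith
    have h2 : a * b ^ 2 * r ≤ a * b ^ 2 * Sb := mul_le_mul_of_nonneg_left h (by positivity)
    have h3 : 0 ≤ b ^ 3 * X := by positivity
    linarith
  · have hr1' : 1 ≤ r := by linarith
    rcases le_or_gt (r ^ 2) (J * q) with h2 | h2
    · have h3 : c1 * q * (a * r ^ 2) ≤ X * (2 * (J * q)) := by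
        have : X * (J * q + r ^ 2) ≤ X * (2 * (J * q)) := by
          apply mul_le_mul_of_nonneg_left _ hX
          linarith
        linarith
      have h4 : c1 * (a * r ^ 2) ≤ 2 * J * X := by
        have h5 : q * (c1 * (a * r ^ 2)) ≤ q * (2 * J * X) := by linarith
        exact le_of_mul_le_mul_left h5 hq
      have h5 : 2 * J * (a * b ^ 2 + C) ≤ r * (b ^ 3 * c1 * a) := by
        have h6 : 2 * J * (a * b ^ 2 + C) / (b ^ 3 * c1 * a) ≤ r := by linarith
        rwa [div_le_iff₀ (by positivity)] at h6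
      have h6 : 2 * J * (a * b ^ 2 + C) * r ≤ r * (b ^ 3 * c1 * a) * r :=
        mul_le_mul_of_nonneg_right h5 hr.le
      have h7 : b ^ 3 * (c1 * (a * r ^ 2)) ≤ b ^ 3 * (2 * J * X) :=
        mul_le_mul_of_nonneg_left h4 (by positivity)
      have h8 : 2 * J * ((a * b ^ 2 + C) * r) ≤ 2 * J * (b ^ 3 * X) := by
        have e1 : r * (b ^ 3 * c1 * a) * r = b ^ 3 * (c1 * (a * r ^ 2)) := by ring
        have e2 : b ^ 3 * (2 * J * X) = 2 * J * (b ^ 3 * X) := by ring
        have e3 : 2 * J * (a * b ^ 2 + C) * r = 2 * J * ((a * b ^ 2 + C) * r) := by ring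
        linarith
      have h9 : (a * b ^ 2 + C) * r ≤ b ^ 3 * X := le_of_mul_le_mul_left h8 (by positivity)
      have h10 : C * 1 ≤ C * r := mul_le_mul_of_nonneg_left hr1' hC.le
      have h11 : (a * b ^ 2 + C) * r = a * b ^ 2 * r + C * r := by ring
      linarith
    · have h3 : c1 * q * (a * r ^ 2) ≤ X * (2 * r ^ 2) := by
        have : X * (J * q + r ^ 2) ≤ X * (2 * r ^ 2) := by
          apply mul_le_mul_of_nonneg_left _ hX
          linarith
        linarith
      have h4 : c1 * q * a ≤ 2 * X := by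
        have h5 : r ^ 2 * (c1 * q * a) ≤ r ^ 2 * (2 * X) := by
          have e1 : r ^ 2 * (c1 * q * a) = c1 * q * (a * r ^ 2) := by ring
          have e2 : r ^ 2 * (2 * X) = X * (2 * r ^ 2) := by ring
          linarith
        exact le_of_mul_le_mul_left h5 (by positivity)
      have h5 : 4 * C ≤ q * (b ^ 3 * c1 * a) := by rwa [div_le_iff₀ (by positivity)] at hqC
      have h6 : a * b ^ 2 * r ≤ a * b ^ 2 * (b * c1 / 4 * q) :=
        mul_le_mul_of_nonneg_left hr1 (by positivity)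
      have h7 : b ^ 3 * (c1 * q * a) ≤ b ^ 3 * (2 * X) :=
        mul_le_mul_of_nonneg_left h4 (by positivity)
      have h8 : a * b ^ 2 * (b * c1 / 4 * q) = b ^ 3 * (c1 * q * a) / 4 := by ring
      have h9 : q * (b ^ 3 * c1 * a) = b ^ 3 * (c1 * q * a) := by ring
      have h10 : b ^ 3 * (2 * X) = 2 * (b ^ 3 * X) := by ring
      linarith

end Pool.Agent.RatExo
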