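import Pool.Agent.Lib_helper9.Rat.B2

/-!
The equation `x_n (b x_{n-1} + x_{n-4}) = a + x_{n-2}`: the two regimes.
-/

set_option autoImplicit false

namespace Pool.Agent.RatExo

open Filter

/-- Bounds for the small terms in the first regime. -/
theorem boundsB {a b c z M y1 y2 y3 k0 p h q g r : ℝ} (ha : 0 < a) (hb : 0 < b) (hc : 0 < c)
    (hM : 0 < M) (hMa : a ≤ M) (hy1 : 0 < y1) (hy2 : 0 < y2) (hy3 : 0 < y3) (hk0 : 0 < k0)
    (hp : 0 < p) (hh : 0 < h) (hg : 0 < g) (hr : 0 < r)
    (lp : p ≤ M)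
    (e1 : p * (b * k0 + y1) = a + y3) (e2 : h * (b * p + y2) = a + k0)
    (e3 : q * (b * h + y3) = a + p) (e4 : g * (b * q + k0) = a + h)
    (e5 : r * (b * g + p) = a + q)
    (hq : c * M ≤ q) (hq1 : 1 ≤ q) (hz : z * r = q) (hz1 : 1 ≤ z)
    (hz2 : 2 * (a + 2 / (b * c)) ≤ z) :
    h ≤ 2 / (b * c) ∧ g ≤ (a + 2 / (b * c)) / b ∧ z / 2 ≤ p ∧ k0 ≤ 2 * (a + 2 / c) / b ∧
      h * z ≤ 2 * (a + 2 * (a + 2 / c) / b) / b := by
  have hcM : 0 < c * M := by positivity
  have hq0 : 0 < q := lt_of_lt_of_le hcM hq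
  have h1 : h ≤ 2 / (b * c) := by
    have h1 : q * (b * h) ≤ a + p := drop_right hq0 hy3 e3.le
    have h2 : c * M * (b * h) ≤ q * (b * h) := mul_le_mul_of_nonneg_right hq (by positivity)
    rw [le_div_iff₀ (by positivity)]
    have e : c * M * (b * h) = h * (b * c) * M := by ring
    have h3 : h * (b * c) * M ≤ 2 * M := by linarith
    exact le_of_mul_le_mul_right h3 hM
  have h2 : y3 ≤ 2 / c := by
    have h1 : q * y3 ≤ a + p := drop_left hq0 (show 0 < b * h by positivity) e3.le
    have h2 : c * M * y3 ≤ q * y3 := mul_le_mul_of_nonneg_right hq hy3.le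
    rw [le_div_iff₀ hc]
    have e : c * M * y3 = y3 * c * M := by ring
    have h3 : y3 * c * M ≤ 2 * M := by linarith
    exact le_of_mul_le_mul_right h3 hM
  have h3 : g ≤ (a + 2 / (b * c)) / b := by
    have h4 : g * (b * q) ≤ a + h := drop_right hg hk0 e4.le
    have h5 : g * b * 1 ≤ g * b * q := mul_le_mul_of_nonneg_left hq1 (by positivity)
    rw [le_div_iff₀ hb]
    linarith [mul_assoc g b q]
  have h4 : z / 2 ≤ p := by
    have h5 : r * z ≤ r * (b * g + p) := by rw [e5]; linarith [mul_comm r z]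
    have h6 : z ≤ b * g + p := le_of_mul_le_mul_left h5 hr
    rw [le_div_iff₀ hb] at h3
    linarith [mul_comm g b]
  have hp2 : 1 / 2 ≤ p := by linarith
  have h5 : k0 ≤ 2 * (a + 2 / c) / b := by
    have h6 : p * (b * k0) ≤ a + y3 := drop_right hp hy1 e1.le
    have h7 : 1 / 2 * (b * k0) ≤ p * (b * k0) := mul_le_mul_of_nonneg_right hp2 (by positivity)
    rw [le_div_iff₀ hb]
    linarith [mul_comm k0 b]
  refine ⟨h1, h3, h4, h5, ?_⟩
  have h6 : h * (b * p) ≤ a + k0 := drop_right hh hy2 e2.le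
  have h7 : h * b * (z / 2) ≤ h * b * p := mul_le_mul_of_nonneg_left h4 (by positivity)
  rw [le_div_iff₀ hb]
  linarith [mul_assoc h b p]

/-- Regime I. -/
theorem regB_I {a b c1 c : ℝ} (ha : 0 < a) (hb : 0 < b) (hc1 : 0 < c1) (hc : 0 < c) :
    ∃ ε > 0, ∀ᶠ M : ℝ in atTop, ∀ y, WinB a b M y → c1 * M ≤ y 14 → c * M ≤ y 7 →
      y 9 ≤ ε * y 7 →
      y 14 + (b + 1 / b) * y 12 ≤ y 7 + (b + 1 / b) * y 5 ∧
      (y 9 ≤ 1 → (1 + b ^ 2 / (4 * b ^ 2 + 2 * b + 4)) * (y 14 + (b + 1 / b) * y 12) ≤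
        y 7 + (b + 1 / b) * y 5) := by
  set F1 : ℝ := 2 / c1 with hF1
  have F1pos : 0 < F1 := by positivity
  set H : ℝ := 2 / (b * c) with hH
  have Hpos : 0 < H := by positivity
  set G : ℝ := (a + H) / b with hG
  have Gpos : 0 < G := by positivity
  set K0 : ℝ := 2 * (a + 2 / c) / b with hK0
  have K0pos : 0 < K0 := by positivity
  set Hz : ℝ := 2 * (a + K0) / b with hHz
  have Hzpos : 0 < Hz := by positivity
  set σ : ℝ := c / (b + 1) with hσ
  have σpos : 0 < σ := by positivity
  set B : ℝ := (a + G) / b * Hz / c with hB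
  have Bpos : 0 < B := by positivity
  set C : ℝ := a * (b ^ 2 + 1) * (b * G) + (a + H) / (b * σ) + b ^ 2 * F1 * (a + F1)
        + (a + F1) * K0 + b * B with hC
  have Cpos : 0 < C := by positivity
  set J : ℝ := 2 * (a + F1) with hJ
  have Jpos : 0 < J := by positivity
  set Sb : ℝ := 1 + 2 * J * (a * b ^ 2 + C) / (b ^ 3 * c1 * a) with hSb
  set ε : ℝ := min 1 (min (1 / (2 * (a + H))) (b * c1 / 4)) with hε
  have εpos : 0 < ε := lt_min one_pos (lt_min (by positivity) (by positivity))
  refine ⟨ε, εpos, ?_⟩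
  filter_upwards [eventually_ge_atTop (1 : ℝ), eventually_ge_atTop a,
    eventually_ge_atTop (1 / c), eventually_ge_atTop (a / c),
    eventually_ge_atTop (4 * C / (b ^ 3 * c1 * a) / c),
    eventually_ge_atTop (Sb * (a * b ^ 2 * Sb + C) / (a * b ^ 2) / c),
    eventually_ge_atTop ((a * b ^ 2 + C) * (2 / (a * b ^ 2)) / c),
    eventually_ge_atTop (b * F1 / c)] with
    M hM1 hMa hMc hMac hMC hMS hMg hMF y h hQ hq hs
  have hM : 0 < M := by linarith
  have e1 : y 5 * (b * y 4 + y 1) = a + y 3 := h.eq 1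
  have e2 : y 6 * (b * y 5 + y 2) = a + y 4 := h.eq 2
  have e3 : y 7 * (b * y 6 + y 3) = a + y 5 := h.eq 3
  have e4 : y 8 * (b * y 7 + y 4) = a + y 6 := h.eq 4
  have e5 : y 9 * (b * y 8 + y 5) = a + y 7 := h.eq 5
  have e6 : y 10 * (b * y 9 + y 6) = a + y 8 := h.eq 6
  have e7 : y 11 * (b * y 10 + y 7) = a + y 9 := h.eq 7
  have e8 : y 12 * (b * y 11 + y 8) = a + y 10 := h.eq 8
  have e9 : y 13 * (b * y 12 + y 9) = a + y 11 := h.eq 9
  have e10 : y 14 * (b * y 13 + y 10) = a + y 12 := h.eq 10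
  have hp := h.pos
  have p1 := hp 1
  have p2 := hp 2
  have p3 := hp 3
  have p4 := hp 4
  have p5 := hp 5
  have p6 := hp 6
  have p7 := hp 7
  have p8 := hp 8
  have p9 := hp 9
  have p10 := hp 10
  have p11 := hp 11
  have p12 := hp 12
  have p13 := hp 13
  have p14 := hp 14
  have l5 := h.le 5 (by norm_num)
  have l7 := h.le 7 (by norm_num)
  have l8 := h.le 8 (by norm_num)
  have l12 := h.le 12 (by norm_num)
  have l14 := h.le 14 (by norm_num)
  clear h hp
  generalize y 1 = y1 at *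
  generalize y 2 = y2 at *
  generalize y 3 = y3 at *
  generalize y 4 = k0 at *
  generalize y 5 = p at *
  generalize y 6 = h at *
  generalize y 7 = q at *
  generalize y 8 = g at *
  generalize y 9 = r at *
  generalize y 10 = f at *
  generalize y 11 = e at *
  generalize y 12 = P at *
  generalize y 13 = d at *
  generalize y 14 = Q at *
  have hcM : 0 < c * M := by positivity
  have hc1M : 0 < c1 * M := by positivity
  -- size of q
  have q1 : 1 ≤ q := by
    rw [div_le_iff₀ hc] at hMc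
    linarith [mul_comm c M]
  have qa : a ≤ q := by
    rw [div_le_iff₀ hc] at hMac
    linarith [mul_comm c M]
  have qC : 4 * C / (b ^ 3 * c1 * a) ≤ q := by
    rw [div_le_iff₀ hc] at hMC
    linarith [mul_comm c M]
  have qS : Sb * (a * b ^ 2 * Sb + C) / (a * b ^ 2) ≤ q := by
    rw [div_le_iff₀ hc] at hMS
    linarith [mul_comm c M]
  have qg : (a * b ^ 2 + C) * (2 / (a * b ^ 2)) ≤ q := by
    rw [div_le_iff₀ hc] at hMg
    linarith [mul_comm c M]
  have qF : b * F1 ≤ q := by
    rw [div_le_iff₀ hc] at hMF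
    linarith [mul_comm c M]
  -- sigma
  have hσr : σ ≤ r := by
    have h1 : r * (b * g + p) ≤ r * ((b + 1) * M) :=
      mul_le_mul_of_nonneg_left (comb_le hb l8 l5) p9.le
    have h2 : c * M ≤ r * (b + 1) * M := by linarith [mul_assoc r (b + 1) M]
    have h3 : c ≤ r * (b + 1) := le_of_mul_le_mul_right h2 hM
    rw [hσ, div_le_iff₀ (by positivity)]
    exact h3
  -- z
  set z : ℝ := q / r with hz
  have hzs : z * r = q := by rw [hz]; field_simp
  have hzε : 1 / ε ≤ z := by
    rw [hz, div_le_div_iff₀ εpos p9]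
    linarith [mul_comm ε q]
  have hz1 : 1 ≤ z := by
    refine le_trans ?_ hzε
    rw [le_div_iff₀ εpos]
    have : ε ≤ 1 := min_le_left _ _
    linarith
  have hz0 : 0 < z := by linarith
  have hz2 : 2 * (a + H) ≤ z := by
    refine le_trans ?_ hzε
    rw [le_div_iff₀ εpos]
    have h1 : ε ≤ 1 / (2 * (a + H)) := (min_le_right _ _).trans (min_le_left _ _)
    rw [le_div_iff₀ (by positivity)] at h1
    linarith [mul_comm ε (2 * (a + H))]
  have hr1 : r ≤ b * c1 / 4 * q := by
    have h1 : ε ≤ b * c1 / 4 := (min_le_right _ _).trans (min_le_right _ _)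
    exact hs.trans (mul_le_mul_of_nonneg_right h1 p7.le)
  obtain ⟨bh, bg, bp, bk, bhz⟩ := boundsB ha hb hc hM hMa p1 p2 p3 p4 p5 p6 p8 p9 l5 e1 e2 e3 e4
    e5 hq q1 hzs hz1 hz2
  -- b d + f bounded
  have bf : f ≤ F1 := by
    have h1 : c1 * M * (b * d + f) ≤ 2 * M := by
      have : c1 * M * (b * d + f) ≤ Q * (b * d + f) :=
        mul_le_mul_of_nonneg_right hQ (by positivity)
      linarith
    have h2 : c1 * M * f ≤ 2 * M := drop_left hc1M (show 0 < b * d by positivity) h1
    rw [hF1, le_div_iff₀ hc1]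
    have h3 : f * c1 * M ≤ 2 * M := by
      have e : f * c1 * M = c1 * M * f := by ring
      linarith
    exact le_of_mul_le_mul_right h3 hM
  have bQfh : Q * f * h ≤ B := by
    have h1 : f * (b * r) ≤ a + G := by
      have := drop_right p10 p6 e6.le
      linarith
    have h2 : f * r ≤ (a + G) / b := by
      rw [le_div_iff₀ hb]
      linarith [mul_comm b r, mul_assoc f r b]
    have h3 : f * r * (h * z) ≤ (a + G) / b * Hz :=
      mul_le_mul h2 bhz (by positivity) (by positivity)
    have h4 : f * r * (h * z) = f * h * q := by rw [← hzs]; ring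
    rw [hB, le_div_iff₀ hc]
    have h10 : Q * c ≤ q := by
      have := mul_le_mul_of_nonneg_left l14 hc.le
      linarith [mul_comm Q c]
    have h11 : (f * h) * (Q * c) ≤ (f * h) * q := mul_le_mul_of_nonneg_left h10 (by positivity)
    have h12 : Q * f * h * c = (f * h) * (Q * c) := by ring
    linarith
  have hmain := mainB ha hb σpos hz0 p4 p6 p8 p10 p11 p12 p14 F1pos e4 e5 e6 e7 e8 e10
    hzs hσr bk bh bg bf bQfh
  have hQq : c1 * q ≤ Q := by
    have := mul_le_mul_of_nonneg_left l7 hc1.le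
    linarith
  have hbf : b * f ≤ q := (mul_le_mul_of_nonneg_left bf hb.le).trans qF
  have haf : 2 * (a + f) ≤ J := by rw [hJ]; linarith
  have hquad := quadB ha hb hc1 p7 p9 p11 p8 p12 p13 e7 e8 e9 hQq hbf haf
  have hX : 0 ≤ Q * (r * d) := by positivity
  have hfin := finalB ha hb hc1 Cpos Jpos p7 p9 hX hquad hr1 qC Sb hSb qS
  -- the difference of the functionals
  have hdiff : a * b * (q + (b + 1 / b) * p) - a * b * (Q + (b + 1 / b) * P) =
      a * b * q + a * (b ^ 2 + 1) * p - (a * b * Q + a * (b ^ 2 + 1) * P) := by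
    field_simp
  have hab : 0 < a * b := by positivity
  have hge : a * b * (Q + (b + 1 / b) * P) ≤ a * b * (q + (b + 1 / b) * p) := by linarith
  refine ⟨le_of_mul_le_mul_left hge hab, ?_⟩
  intro hs2
  -- the gain
  have hzq : q ≤ z := by
    have : z * r ≤ z * 1 := mul_le_mul_of_nonneg_left hs2 hz0.le
    linarith
  have hab2 : 0 < a * b ^ 2 := by positivity
  have g1 : a * b ^ 2 * r + C ≤ a * b ^ 2 / 2 * z := by
    have h1 : a * b ^ 2 * r ≤ a * b ^ 2 * 1 := mul_le_mul_of_nonneg_left hs2 hab2.le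
    have h2 : a * b ^ 2 / 2 * ((a * b ^ 2 + C) * (2 / (a * b ^ 2))) ≤ a * b ^ 2 / 2 * z :=
      mul_le_mul_of_nonneg_left (qg.trans hzq) (by positivity)
    have h3 : a * b ^ 2 / 2 * ((a * b ^ 2 + C) * (2 / (a * b ^ 2))) = a * b ^ 2 + C := by
      field_simp
    linarith
  have hXb : 0 ≤ b ^ 3 * (Q * (r * d)) := by positivity
  have g2 : a * b ^ 2 / 2 * z ≤
      a * b * (q + (b + 1 / b) * p) - a * b * (Q + (b + 1 / b) * P) := by
    linarith
  -- upper bound for the functional
  have g3 : p ≤ 2 * z := by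
    have h1 : r * p ≤ a + q := drop_left p9 (show 0 < b * g by positivity) e5.le
    have h2 : r * p ≤ r * (2 * z) := by linarith [mul_comm r z]
    exact le_of_mul_le_mul_left h2 p9
  set ρ : ℝ := (4 * b ^ 2 + 2 * b + 4) / b ^ 2 with hρ
  have ρpos : 0 < ρ := by positivity
  have g4 : a * b * (q + (b + 1 / b) * p) ≤ ρ * (a * b ^ 2 / 2 * z) := by
    have h1 : a * b * (q + (b + 1 / b) * p) = a * b * q + a * (b ^ 2 + 1) * p := by
      field_simp
    have h2 : a * (b ^ 2 + 1) * p ≤ a * (b ^ 2 + 1) * (2 * z) :=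
      mul_le_mul_of_nonneg_left g3 (by positivity)
    have h3 : a * b * q ≤ a * b * z := mul_le_mul_of_nonneg_left hzq hab.le
    have h4 : ρ * (a * b ^ 2 / 2 * z) = a * b * z + a * (b ^ 2 + 1) * (2 * z) := by
      rw [hρ]
      field_simp
      ring
    linarith
  set X1 : ℝ := q + (b + 1 / b) * p with hX1
  set X2 : ℝ := Q + (b + 1 / b) * P with hX2
  have g5 : a * b * X1 ≤ ρ * (a * b * X1 - a * b * X2) :=
    g4.trans (mul_le_mul_of_nonneg_left g2 ρpos.le)
  have g6 : a * b * X2 ≤ ρ * (a * b * X1 - a * b * X2) := by linarith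
  have g7 : X2 ≤ ρ * (X1 - X2) := by
    have : a * b * X2 ≤ a * b * (ρ * (X1 - X2)) := by
      have e : a * b * (ρ * (X1 - X2)) = ρ * (a * b * X1 - a * b * X2) := by ring
      linarith
    exact le_of_mul_le_mul_left this hab
  have g8 : X2 / ρ ≤ X1 - X2 := by
    rw [div_le_iff₀ ρpos]
    linarith [mul_comm (X1 - X2) ρ]
  have g9 : (1 + b ^ 2 / (4 * b ^ 2 + 2 * b + 4)) * X2 = X2 + X2 / ρ := by
    rw [hρ]
    field_simp
  linarith

/-- Regime II. -/
theorem regB_II {a b c1 c ε : ℝ} (ha : 0 < a) (hb : 0 < b) (hc1 : 0 < c1) (hc : 0 < c)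
    (hε : 0 < ε) :
    ∀ᶠ M : ℝ in atTop, ∀ y, WinB a b M y → c1 * M ≤ y 14 → c * M ≤ y 7 →
      ε * y 7 ≤ y 9 →
      3 / 2 * (y 14 + (b + 1 / b) * y 12) ≤ y 9 + (b + 1 / b) * y 7 ∧ ε / 2 ≤ y 11 := by
  set l : ℝ := b + 1 / b with hl
  have hlb : b ≤ l := by rw [hl]; linarith [show 0 < 1 / b by positivity]
  have hl2 : 2 ≤ l := by
    rw [hl, ← sub_nonneg]
    have : b + 1 / b - 2 = (b - 1) ^ 2 / b := by field_simp; ring
    rw [this]
    positivity
  have lpos : 0 < l := by linarith
  set F1 : ℝ := 2 / c1 with hF1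
  have F1pos : 0 < F1 := by positivity
  set H : ℝ := 2 / (b * c) with hH
  have Hpos : 0 < H := by positivity
  set G : ℝ := (a + H) / b with hG
  have Gpos : 0 < G := by positivity
  set P1 : ℝ := (a + F1) * (2 / (b * ε)) with hP1
  have P1pos : 0 < P1 := by positivity
  set V : ℝ := b ^ 2 * P1 * (a + P1) + (a + P1) * H with hV
  have Vpos : 0 < V := by positivity
  set V1 : ℝ := a * b * F1 + b * F1 ^ 2 + (a + G) / (b * ε) with hV1
  have V1pos : 0 < V1 := by positivity
  set K : ℝ := 3 / 2 * ((V + V1) / (a * (b ^ 2 + 1))) + 3 / 2 * (l * P1) with hK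
  have Kpos : 0 < K := by positivity
  filter_upwards [eventually_ge_atTop (1 : ℝ), eventually_ge_atTop a,
    eventually_ge_atTop (1 / c), eventually_ge_atTop (b * F1 / c),
    eventually_ge_atTop (2 * K / c)] with
    M hM1 hMa hMc hMF hMK y h hQ hq hs
  have hM : 0 < M := by linarith
  have e3 : y 7 * (b * y 6 + y 3) = a + y 5 := h.eq 3
  have e4 : y 8 * (b * y 7 + y 4) = a + y 6 := h.eq 4
  have e6 : y 10 * (b * y 9 + y 6) = a + y 8 := h.eq 6
  have e7 : y 11 * (b * y 10 + y 7) = a + y 9 := h.eq 7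
  have e8 : y 12 * (b * y 11 + y 8) = a + y 10 := h.eq 8
  have e9 : y 13 * (b * y 12 + y 9) = a + y 11 := h.eq 9
  have e10 : y 14 * (b * y 13 + y 10) = a + y 12 := h.eq 10
  have hp := h.pos
  have p3 := hp 3
  have p4 := hp 4
  have p5 := hp 5
  have p6 := hp 6
  have p7 := hp 7
  have p8 := hp 8
  have p9 := hp 9
  have p10 := hp 10
  have p11 := hp 11
  have p12 := hp 12
  have p13 := hp 13
  have p14 := hp 14
  have l5 := h.le 5 (by norm_num)
  have l7 := h.le 7 (by norm_num)
  have l9 := h.le 9 (by norm_num)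
  have l12 := h.le 12 (by norm_num)
  have l14 := h.le 14 (by norm_num)
  clear h hp
  generalize y 3 = y3 at *
  generalize y 4 = k0 at *
  generalize y 5 = p at *
  generalize y 6 = h at *
  generalize y 7 = q at *
  generalize y 8 = g at *
  generalize y 9 = r at *
  generalize y 10 = f at *
  generalize y 11 = e at *
  generalize y 12 = P at *
  generalize y 13 = d at *
  generalize y 14 = Q at *
  have hcM : 0 < c * M := by positivity
  have hc1M : 0 < c1 * M := by positivity
  have q1 : 1 ≤ q := by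
    rw [div_le_iff₀ hc] at hMc
    linarith [mul_comm c M]
  have qF : b * F1 ≤ q := by
    rw [div_le_iff₀ hc] at hMF
    linarith [mul_comm c M]
  have qK : 2 * K ≤ q := by
    rw [div_le_iff₀ hc] at hMK
    linarith [mul_comm c M]
  -- bounds
  have bf : f ≤ F1 := by
    have h1 : c1 * M * (b * d + f) ≤ 2 * M := by
      have : c1 * M * (b * d + f) ≤ Q * (b * d + f) :=
        mul_le_mul_of_nonneg_right hQ (by positivity)
      linarith
    have h2 : c1 * M * f ≤ 2 * M := drop_left hc1M (show 0 < b * d by positivity) h1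
    rw [hF1, le_div_iff₀ hc1]
    have h3 : f * c1 * M ≤ 2 * M := by
      have e : f * c1 * M = c1 * M * f := by ring
      linarith
    exact le_of_mul_le_mul_right h3 hM
  have hbf : b * f ≤ q := (mul_le_mul_of_nonneg_left bf hb.le).trans qF
  have he : ε / 2 ≤ e := by
    have h1 : e * (b * f + q) ≤ e * (2 * q) := by
      apply mul_le_mul_of_nonneg_left _ p11.le
      linarith
    have h2 : ε / 2 * q ≤ e * q := by linarith
    exact le_of_mul_le_mul_right h2 p7
  refine ⟨?_, he⟩
  have bh : h ≤ H := by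
    have h1 : q * (b * h) ≤ a + p := drop_right p7 p3 e3.le
    have h2 : c * M * (b * h) ≤ q * (b * h) := mul_le_mul_of_nonneg_right hq (by positivity)
    rw [hH, le_div_iff₀ (by positivity)]
    have e : c * M * (b * h) = h * (b * c) * M := by ring
    have h3 : h * (b * c) * M ≤ 2 * M := by linarith
    exact le_of_mul_le_mul_right h3 hM
  have bg : g ≤ G := by
    have h4 : g * (b * q) ≤ a + h := drop_right p8 p4 e4.le
    have h5 : g * b * 1 ≤ g * b * q := mul_le_mul_of_nonneg_left q1 (by positivity)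
    rw [hG, le_div_iff₀ hb]
    linarith [mul_assoc g b q]
  have bPe : P * (b * e) ≤ a + f := drop_right p12 p8 e8.le
  have bP : P ≤ P1 := by
    have h1 : P * b * (ε / 2) ≤ P * b * e := mul_le_mul_of_nonneg_left he (by positivity)
    have h2 : P * (b * ε / 2) ≤ a + F1 := by
      have e1 : P * (b * ε / 2) = P * b * (ε / 2) := by ring
      linarith [mul_assoc P b e]
    have h3 : P * (b * ε / 2) * (2 / (b * ε)) ≤ (a + F1) * (2 / (b * ε)) :=
      mul_le_mul_of_nonneg_right h2 (by positivity)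
    have h4 : P * (b * ε / 2) * (2 / (b * ε)) = P := by field_simp
    rw [hP1]; linarith
  have bQd : Q * (b * d) ≤ a + P := drop_right p14 p10 e10.le
  have bQf : Q * f ≤ a + P := drop_left p14 (show 0 < b * d by positivity) e10.le
  -- the identity
  have id1 : Q * (a * (b ^ 2 + 1) + b ^ 2 * e) = b * r * (a + P) + b ^ 2 * P * (Q * (b * d))
      - Q * g + Q * f * h := by
    linear_combination b * r * e10 - Q * e6 - b ^ 2 * Q * e9
  have m1 : Q * (a * (b ^ 2 + 1)) ≤ b * r * (a + P) + V := by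
    have h1 : b ^ 2 * P * (Q * (b * d)) ≤ b ^ 2 * P1 * (a + P1) := by
      apply mul_le_mul _ _ (by positivity) (by positivity)
      · exact mul_le_mul_of_nonneg_left bP (by positivity)
      · linarith
    have h2 : Q * f * h ≤ (a + P1) * H := mul_le_mul (by linarith) bh p6.le (by positivity)
    have h3 : 0 < Q * g := by positivity
    have h4 : 0 < Q * (b ^ 2 * e) := by positivity
    have h5 : Q * (a * (b ^ 2 + 1) + b ^ 2 * e) = Q * (a * (b ^ 2 + 1)) + Q * (b ^ 2 * e) := by
      ring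
    rw [hV]
    linarith
  have m2 : b * (r * P) ≤ a * q + V1 := by
    have h1 : r ≤ e * (b * f + q) := by linarith
    have h2 : b * P * r ≤ b * P * (e * (b * f + q)) := mul_le_mul_of_nonneg_left h1 (by positivity)
    have h3 : P * (b * e) * (b * f + q) ≤ (a + f) * (b * f + q) :=
      mul_le_mul_of_nonneg_right bPe (by positivity)
    have h4 : f * q ≤ (a + G) / (b * ε) := by
      rw [le_div_iff₀ (by positivity)]
      have h5 : f * b * (ε * q) ≤ f * b * r := mul_le_mul_of_nonneg_left hs (by positivity)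
      have h6 : f * (b * r) ≤ a + g := drop_right p10 p6 e6.le
      have e1 : f * q * (b * ε) = f * b * (ε * q) := by ring
      linarith [mul_assoc f b r]
    have h5 : a * (b * f) ≤ a * b * F1 := by
      have := mul_le_mul_of_nonneg_left bf (show 0 ≤ a * b by positivity)
      linarith [mul_assoc a b f]
    have h6 : f * (b * f) ≤ b * F1 ^ 2 := by
      have h7 : f * f ≤ F1 * F1 := mul_le_mul bf bf p10.le F1pos.le
      have h8 := mul_le_mul_of_nonneg_left h7 hb.le
      have e1 : f * (b * f) = b * (f * f) := by ring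
      have e2 : b * F1 ^ 2 = b * (F1 * F1) := by ring
      linarith
    have h7 : (a + f) * (b * f + q) = a * (b * f) + a * q + f * (b * f) + f * q := by ring
    have h8 : b * P * (e * (b * f + q)) = P * (b * e) * (b * f + q) := by ring
    have h9 : b * (r * P) = b * P * r := by ring
    rw [hV1]
    linarith
  have m3 : Q * (a * (b ^ 2 + 1)) ≤ a * (b * r + q) + (V + V1) := by
    have e1 : b * r * (a + P) = a * (b * r) + b * (r * P) := by ring
    linarith [mul_add a (b * r) q]
  have m4 : Q ≤ r / 2 + q + (V + V1) / (a * (b ^ 2 + 1)) := by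
    have h1 : a * (b ^ 2 + 1) * Q ≤ a * (b ^ 2 + 1) * (r / 2 + q + (V + V1) / (a * (b ^ 2 + 1))) := by
      have e1 : a * (b ^ 2 + 1) * (r / 2 + q + (V + V1) / (a * (b ^ 2 + 1))) =
          a * ((b ^ 2 + 1) / 2 * r + (b ^ 2 + 1) * q) + (V + V1) := by
        field_simp
      have h2 : b * r ≤ (b ^ 2 + 1) / 2 * r := by
        apply mul_le_mul_of_nonneg_right _ p9.le
        nlinarith [sq_nonneg (b - 1)]
      have h3 : q ≤ (b ^ 2 + 1) * q := by
        have : 0 < b ^ 2 * q := by positivity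
        linarith [add_mul (b ^ 2) 1 q]
      have h4 : a * (b * r + q) ≤ a * ((b ^ 2 + 1) / 2 * r + (b ^ 2 + 1) * q) :=
        mul_le_mul_of_nonneg_left (by linarith) ha.le
      linarith [mul_comm Q (a * (b ^ 2 + 1))]
    exact le_of_mul_le_mul_left h1 (by positivity)
  have m5 : l * P ≤ l * P1 := mul_le_mul_of_nonneg_left bP lpos.le
  have m6 : 2 * q ≤ l * q := mul_le_mul_of_nonneg_right hl2 p7.le
  linarith

end Pool.Agent.RatExo
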