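import Pool.Agent.Lib_helper9.Rat.B4
import Pool.Agent.Lib_helper9.Rat.Chain

/-!
The equation `x_n (b x_{n-1} + x_{n-4}) = a + x_{n-2}`: boundedness.
-/

set_option autoImplicit false

namespace Pool.Agent.RatExo

open Filter

theorem sigB {a b c M : ℝ} (hb : 0 < b) (ha : 0 < a) (hM : 0 < M) {y : ℕ → ℝ}
    (h : WinB a b M y) (hq : c * M ≤ y 7) : c / (b + 1) ≤ y 9 := by
  have e5 : y 9 * (b * y 8 + y 5) = a + y 7 := h.eq 5
  have h1 : y 9 * (b * y 8 + y 5) ≤ y 9 * ((b + 1) * M) :=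
    mul_le_mul_of_nonneg_left (comb_le hb (h.le 8 (by norm_num)) (h.le 5 (by norm_num)))
      (h.pos 9).le
  have h2 : c * M ≤ y 9 * (b + 1) * M := by linarith [mul_assoc (y 9) (b + 1) M]
  have h3 : c ≤ y 9 * (b + 1) := le_of_mul_le_mul_right h2 hM
  rw [div_le_iff₀ (by positivity)]
  exact h3

/-- The step of the chain argument. -/
theorem stepB {a b s : ℝ} (ha : 0 < a) (hb : 0 < b) (hs : 0 < s) :
    ∃ σ' > 0, ∀ᶠ M : ℝ in atTop, ∀ y, WinB a b M y → M ≤ y 14 + (b + 1 / b) * y 12 → s ≤ y 16 →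
      (σ' ≤ y 9 ∧ (1 + b ^ 2 / (4 * b ^ 2 + 2 * b + 4)) * (y 14 + (b + 1 / b) * y 12) ≤
        y 7 + (b + 1 / b) * y 5) ∨
      (1 / (a + 2) ≤ y 9 ∧ y 14 + (b + 1 / b) * y 12 ≤ y 7 + (b + 1 / b) * y 5) ∨
      (σ' ≤ y 11 ∧ (1 + b ^ 2 / (4 * b ^ 2 + 2 * b + 4)) * (y 14 + (b + 1 / b) * y 12) ≤
        y 9 + (b + 1 / b) * y 7) := by
  have hl : 0 < b + 1 / b := by positivity
  set c1 : ℝ := s / (2 * (s + (b + 1 / b))) with hc1
  have c1pos : 0 < c1 := by positivity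
  obtain ⟨c, cpos, hc⟩ := pinB ha hb c1pos
  obtain ⟨ε, εpos, hI⟩ := regB_I ha hb c1pos cpos
  have hII := regB_II ha hb c1pos cpos εpos
  refine ⟨min (c / (b + 1)) (ε / 2), lt_min (by positivity) (by positivity), ?_⟩
  filter_upwards [hc, hI, hII, eventually_gt_atTop (0 : ℝ),
    eventually_ge_atTop (2 * (b + 1 / b) * a / s)] with M h1 h2 h3 hM h5 y hy hF hS
  have e12 : y 16 * (b * y 15 + y 12) = a + y 14 := hy.eq 12
  have hQ : c1 * M ≤ y 14 := pinB_Q hb hl hs (hy.pos 12) (hy.pos 15) e12 hF hS h5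
  have hq := h1 y hy hQ
  have hsig := sigB hb ha hM hy hq
  rcases le_or_gt (y 9) (ε * y 7) with h | h
  · obtain ⟨g1, g2⟩ := h2 y hy hQ hq h
    rcases le_or_gt (1 / (a + 2)) (y 9) with h6 | h6
    · exact Or.inr (Or.inl ⟨h6, g1⟩)
    · left
      refine ⟨(min_le_left _ _).trans hsig, g2 ?_⟩
      have : 1 / (a + 2) ≤ 1 := by
        rw [div_le_one (by positivity)]
        linarith
      linarith
  · obtain ⟨g1, g2⟩ := h3 y hy hQ hq h.le
    right; right
    refine ⟨(min_le_right _ _).trans g2, le_trans ?_ g1⟩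
    have h7 : b ^ 2 / (4 * b ^ 2 + 2 * b + 4) ≤ 1 / 2 := by
      rw [div_le_div_iff₀ (by positivity) (by norm_num)]
      nlinarith [sq_nonneg b]
    have h8 : 0 < y 14 + (b + 1 / b) * y 12 := by
      have := hy.pos 14
      have := hy.pos 12
      positivity
    apply mul_le_mul_of_nonneg_right _ h8.le
    linarith

/-- Positive solutions of `x_n (b x_{n-1} + x_{n-4}) = a + x_{n-2}` are bounded. -/
theorem boundedB {a b : ℝ} (ha : 0 < a) (hb : 0 < b) {x : ℕ → ℝ} (hx : ∀ n, 0 < x n)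
    (heq : ∀ n, x (n + 4) * (b * x (n + 3) + x n) = a + x (n + 2)) : ∃ B, ∀ n, x n ≤ B := by
  have hl : 0 < b + 1 / b := by positivity
  refine chain (F := fun n => x n + (b + 1 / b) * x (n - 2)) (S := fun n => x (n + 2))
    (lam := b + 1 / b) (del := b ^ 2 / (4 * b ^ 2 + 2 * b + 4)) (s0 := 1 / (a + 2)) (L := 16)
    (by positivity) (by positivity) ?_ ?_ ?_
  · intro n M h
    have h1 := h n le_rfl
    have h2 := h (n - 2) (Nat.sub_le _ _)
    have h3 : (b + 1 / b) * x (n - 2) ≤ (b + 1 / b) * M := mul_le_mul_of_nonneg_left h2 hl.le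
    show x n + (b + 1 / b) * x (n - 2) ≤ (1 + (b + 1 / b)) * M
    linarith [add_mul 1 (b + 1 / b) M]
  · intro n hn h1 h
    obtain ⟨m, rfl⟩ : ∃ m, n = m + 4 := ⟨n - 4, by omega⟩
    refine ⟨?_, ?_⟩
    · have : 0 < (b + 1 / b) * x (m + 4 - 2) := mul_pos hl (hx _)
      show x (m + 4) ≤ x (m + 4) + (b + 1 / b) * x (m + 4 - 2)
      linarith
    · show 1 / (a + 2) ≤ x (m + 6)
      have g1 : x (m + 5) * (b * x (m + 4) + x (m + 1)) = a + x (m + 3) := heq (m + 1)
      have g2 : x (m + 6) * (b * x (m + 5) + x (m + 2)) = a + x (m + 4) := heq (m + 2)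
      have g3 := h (m + 3) (by omega)
      have g4 := h (m + 2) (by omega)
      have p4 := hx (m + 4)
      have p5 := hx (m + 5)
      have p6 := hx (m + 6)
      have g5 : x (m + 5) * (b * x (m + 4)) ≤ a + x (m + 3) :=
        drop_right p5 (hx (m + 1)) g1.le
      have g6 : b * x (m + 5) ≤ a + 1 := by
        have h2 : a * 1 ≤ a * x (m + 4) := mul_le_mul_of_nonneg_left h1 ha.le
        have h3 : b * x (m + 5) * x (m + 4) ≤ (a + 1) * x (m + 4) := by
          have e : b * x (m + 5) * x (m + 4) = x (m + 5) * (b * x (m + 4)) := by ring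
          linarith [add_mul a 1 (x (m + 4))]
        exact le_of_mul_le_mul_right h3 p4
      have g7 : b * x (m + 5) + x (m + 2) ≤ (a + 2) * x (m + 4) := by
        have h2 : (a + 1) * 1 ≤ (a + 1) * x (m + 4) :=
          mul_le_mul_of_nonneg_left h1 (by positivity)
        have e : (a + 2) * x (m + 4) = (a + 1) * x (m + 4) + x (m + 4) := by ring
        linarith
      have g8 : x (m + 6) * (b * x (m + 5) + x (m + 2)) ≤ x (m + 6) * ((a + 2) * x (m + 4)) :=
        mul_le_mul_of_nonneg_left g7 p6.le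
      rw [div_le_iff₀ (by positivity)]
      have g9 : 1 * x (m + 4) ≤ x (m + 6) * (a + 2) * x (m + 4) := by
        linarith [mul_assoc (x (m + 6)) (a + 2) (x (m + 4))]
      exact le_of_mul_le_mul_right g9 p4
  · intro s hs
    obtain ⟨σ', hσ', hev⟩ := stepB ha hb hs
    obtain ⟨K, hK⟩ := eventually_atTop.mp hev
    refine ⟨K, σ', hσ', ?_⟩
    intro n M hn hM hxM hF hS
    obtain ⟨m, rfl⟩ : ∃ m, n = m + 14 := ⟨n - 14, by omega⟩
    have hw : WinB a b M (fun i => x (m + i)) := by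
      refine ⟨fun i => hx _, fun i hi => hxM _ (by omega), fun i => ?_⟩
      have := heq (m + i)
      simpa [Nat.add_assoc] using this
    have h1 := hK M hM (fun i => x (m + i)) hw hF hS
    rcases h1 with ⟨h1, h2⟩ | ⟨h1, h2⟩ | ⟨h1, h2⟩
    · exact ⟨m + 7, by omega, Or.inl ⟨h1, h2⟩⟩
    · exact ⟨m + 7, by omega, Or.inr ⟨h1, h2⟩⟩
    · exact ⟨m + 9, by omega, Or.inl ⟨h1, h2⟩⟩

end Pool.Agent.RatExo
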